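import Pool.Agent.W979.TE.Defs3

/-!
Project TE3: embedding over a good tuple.
-/

set_option autoImplicit false

open Classical

namespace Pool.Agent.W239.TE3E

open Pool.Agent.W979.TE3

/-! ### counting -/

/-- the number of elements with the property `P` -/
noncomputable def cnt {Ω : Type} (P : Ω → Prop) : ℕ := Nat.card {x // P x}

theorem cnt_eq {Ω : Type} [Fintype Ω] (P : Ω → Prop) [DecidablePred P] :
    (Finset.univ.filter P).card = cnt P := by
  unfold cnt
  rw [Nat.card_eq_fintype_card, Fintype.card_subtype]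

theorem cnt_or3 {Ω : Type} [Fintype Ω] (P Q1 Q2 Q3 : Ω → Prop)
    (h : ∀ x, P x → Q1 x ∨ Q2 x ∨ Q3 x) : cnt P ≤ cnt Q1 + cnt Q2 + cnt Q3 := by
  rw [← cnt_eq P, ← cnt_eq Q1, ← cnt_eq Q2, ← cnt_eq Q3]
  refine le_trans (Finset.card_le_card (t := (Finset.univ.filter Q1 ∪ Finset.univ.filter Q2) ∪
    Finset.univ.filter Q3) ?_) (le_trans (Finset.card_union_le _ _)
      (Nat.add_le_add (Finset.card_union_le _ _) le_rfl))
  intro x hx
  have hx' := (Finset.mem_filter.1 hx).2
  rw [Finset.mem_union, Finset.mem_union]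
  rcases h x hx' with h1 | h1 | h1
  · exact Or.inl (Or.inl (Finset.mem_filter.2 ⟨Finset.mem_univ _, h1⟩))
  · exact Or.inl (Or.inr (Finset.mem_filter.2 ⟨Finset.mem_univ _, h1⟩))
  · exact Or.inr (Finset.mem_filter.2 ⟨Finset.mem_univ _, h1⟩)

theorem cnt_false {Ω : Type} [Fintype Ω] : cnt (fun _ : Ω => False) = 0 := by
  unfold cnt
  simp

theorem cnt_mono {Ω : Type} [Fintype Ω] (P Q : Ω → Prop) (h : ∀ x, P x → Q x) :
    cnt P ≤ cnt Q := by
  rw [← cnt_eq P, ← cnt_eq Q]
  refine Finset.card_le_card fun x hx => ?_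
  exact Finset.mem_filter.2 ⟨Finset.mem_univ _, h x (Finset.mem_filter.1 hx).2⟩

theorem pmean {ι : Type} [Fintype ι] [Nonempty ι] (g : ι → ℝ) (hg : ∀ i, 0 ≤ g i) (m : ℝ)
    (hm : 0 ≤ m) (h : m * Fintype.card ι ≤ ∑ i, g i) (n : ℕ) :
    m ^ n * Fintype.card ι ≤ ∑ i, g i ^ n := by
  cases n with
  | zero => simp
  | succ n =>
    have h1 := pow_sum_div_card_le_sum_pow (s := Finset.univ) (f := g) (fun i _ => hg i) n
    rw [Finset.card_univ] at h1
    have hc : (0 : ℝ) < Fintype.card ι := by exact_mod_cast Fintype.card_pos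
    have h2 : (m * Fintype.card ι) ^ (n + 1) ≤ (∑ i, g i) ^ (n + 1) :=
      pow_le_pow_left₀ (by positivity) h _
    calc m ^ (n + 1) * Fintype.card ι = (m * Fintype.card ι) ^ (n + 1) / Fintype.card ι ^ n := by
          field_simp
          ring
      _ ≤ (∑ i, g i) ^ (n + 1) / Fintype.card ι ^ n := by gcongr
      _ ≤ _ := h1

theorem sido {X W : Type} [Fintype X] [Fintype W] [Nonempty X] [Nonempty W] (F : X → W → ℝ)
    (hF : ∀ x p, 0 ≤ F x p) (β : ℝ) (hβ : 0 ≤ β)
    (h : β * Fintype.card X * Fintype.card W ≤ ∑ x, ∑ p, F x p) (t s : ℕ) :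
    β ^ (t * s) * (Fintype.card X : ℝ) ^ t * (Fintype.card W : ℝ) ^ s ≤
      ∑ c : Fin t → X, ∑ P : Fin s → W, ∏ i, ∏ j, F (c j) (P i) := by
  have hA := pmean (fun p => ∑ x, F x p) (fun p => Finset.sum_nonneg fun x _ => hF x p)
    (β * Fintype.card X) (by positivity) (by rw [Finset.sum_comm]; exact h) t
  have hA' : ∑ p, (∑ x, F x p) ^ t = ∑ c : Fin t → X, ∑ p, ∏ j, F (c j) p := by
    rw [Finset.sum_comm]
    refine Finset.sum_congr rfl fun p _ => ?_
    rw [Fintype.sum_pow]
  rw [hA'] at hA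
  have hB := pmean (fun c : Fin t → X => ∑ p, ∏ j, F (c j) p)
    (fun c => Finset.sum_nonneg fun p _ => Finset.prod_nonneg fun j _ => hF _ _)
    (β ^ t * Fintype.card W) (by positivity) (by
      refine le_trans (le_of_eq ?_) hA
      rw [Fintype.card_fun, Fintype.card_fin]
      push_cast
      ring) s
  have hB' : ∀ c : Fin t → X, (∑ p, ∏ j, F (c j) p) ^ s =
      ∑ P : Fin s → W, ∏ i, ∏ j, F (c j) (P i) := by
    intro c
    rw [Fintype.sum_pow]
  simp only [hB'] at hB
  refine le_trans (le_of_eq ?_) hB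
  rw [Fintype.card_fun, Fintype.card_fin]
  push_cast
  ring

theorem cnt_update {I X : Type} [Fintype I] [DecidableEq I] [Fintype X] (i' : I) (P : (I → X) → Prop) (D : ℕ)
    (h : ∀ φ : I → X, cnt (fun b => P (Function.update φ i' b)) ≤ D) :
    cnt P ≤ D * Fintype.card X ^ (Fintype.card I - 1) := by
  rw [← cnt_eq P]
  simp only [← cnt_eq (fun b => P (Function.update _ i' b))] at h
  have h1 := Finset.card_le_mul_card_image
    (f := fun (φ : I → X) (j : {j // j ≠ i'}) => φ j.1)
    (Finset.univ.filter fun φ : I → X => P φ) D (by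
      intro a ha
      obtain ⟨φ0, hφ0, rfl⟩ := Finset.mem_image.1 ha
      refine le_trans (Finset.card_le_card_of_injOn (fun φ => φ i') ?_ ?_) (h φ0)
      · intro φ hφ
        simp only [Finset.coe_filter, Finset.mem_filter, Finset.mem_univ, true_and,
          Set.mem_ofPred_eq] at hφ ⊢
        have : Function.update φ0 i' (φ i') = φ := by
          funext j
          by_cases hj : j = i'
          · subst hj
            simp
          · rw [Function.update_of_ne hj]
            have := congrFun hφ.2 ⟨j, hj⟩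
            exact this.symm
        rw [this]
        exact hφ.1
      · intro φ hφ ψ hψ hφψ
        simp only [Finset.coe_filter, Finset.mem_filter, Finset.mem_univ, true_and,
          Set.mem_ofPred_eq] at hφ hψ
        funext j
        by_cases hj : j = i'
        · rw [hj]
          exact hφψ
        · have h1 := congrFun hφ.2 ⟨j, hj⟩
          have h2 := congrFun hψ.2 ⟨j, hj⟩
          exact h1.trans h2.symm)
  refine le_trans h1 (Nat.mul_le_mul_left _ ?_)
  refine le_trans (Finset.card_le_univ _) (le_of_eq ?_)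
  rw [Fintype.card_fun]
  congr 1
  rw [Fintype.card_subtype_compl, Fintype.card_subtype_eq]

/-! ### choice of disjoint gadgets -/

theorem greedy {J V : Type} [Fintype J] (M g : ℕ) (G : J → Fin M → Finset V) (F : Finset V)
    (hG : ∀ p m m', m ≠ m' → Disjoint (G p m) (G p m')) (hg : ∀ p m, (G p m).card ≤ g)
    (hM : F.card + Fintype.card J * g < M) :
    ∃ m : J → Fin M, (∀ p, Disjoint (G p (m p)) F) ∧
      ∀ p p', p ≠ p' → Disjoint (G p (m p)) (G p' (m p')) := by
  have hMpos : 0 < M := by omega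
  have key : ∀ S : Finset J, ∃ m : J → Fin M, (∀ p ∈ S, Disjoint (G p (m p)) F) ∧
      ∀ p ∈ S, ∀ p' ∈ S, p ≠ p' → Disjoint (G p (m p)) (G p' (m p')) := by
    intro S
    induction S using Finset.induction_on with
    | empty => exact ⟨fun _ => ⟨0, hMpos⟩, by simp, by simp⟩
    | insert p0 S hp0 ih =>
      obtain ⟨m, hm1, hm2⟩ := ih
      set F' : Finset V := F ∪ S.biUnion fun p => G p (m p) with hF'
      have hF'c : F'.card < M := by
        have h1 : F'.card ≤ F.card + (S.biUnion fun p => G p (m p)).card :=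
          Finset.card_union_le _ _
        have h2 : (S.biUnion fun p => G p (m p)).card ≤ S.card * g :=
          Finset.card_biUnion_le_card_mul _ _ _ fun p _ => hg p _
        have h3 : S.card * g ≤ Fintype.card J * g :=
          Nat.mul_le_mul_right _ (Finset.card_le_univ S)
        omega
      have hex : ∃ m0 : Fin M, Disjoint (G p0 m0) F' := by
        by_contra hcon
        push Not at hcon
        have h1 : ∀ m0 : Fin M, ∃ v, v ∈ G p0 m0 ∧ v ∈ F' := by
          intro m0
          have := hcon m0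
          rw [Finset.not_disjoint_iff] at this
          exact this
        choose v hv1 hv2 using h1
        have hinj : Function.Injective v := by
          intro a b hab
          by_contra hne
          have := Finset.disjoint_left.1 (hG p0 a b hne) (hv1 a)
          rw [hab] at this
          exact this (hv1 b)
        have h2 : Fintype.card (Fin M) ≤ F'.card := by
          rw [← Finset.card_univ]
          exact Finset.card_le_card_of_injOn v (fun a _ => hv2 a) hinj.injOn
        rw [Fintype.card_fin] at h2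
        omega
      obtain ⟨m0, hm0⟩ := hex
      rw [hF', Finset.disjoint_union_right, Finset.disjoint_biUnion_right] at hm0
      refine ⟨Function.update m p0 m0, ?_, ?_⟩
      · intro p hp
        rcases Finset.mem_insert.1 hp with h | h
        · rw [h, Function.update_self]
          exact hm0.1
        · have hne : p ≠ p0 := fun h' => hp0 (h' ▸ h)
          rw [Function.update_of_ne hne]
          exact hm1 p h
      · intro p hp p' hp' hne
        rcases Finset.mem_insert.1 hp with h | h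
        · rcases Finset.mem_insert.1 hp' with h' | h'
          · exact absurd (h.trans h'.symm) hne
          · have hne' : p' ≠ p0 := fun h'' => hp0 (h'' ▸ h')
            rw [h, Function.update_self, Function.update_of_ne hne']
            exact hm0.2 p' h'
        · have hne' : p ≠ p0 := fun h'' => hp0 (h'' ▸ h)
          rcases Finset.mem_insert.1 hp' with h' | h'
          · rw [h', Function.update_self, Function.update_of_ne hne']
            exact (hm0.2 p h).symm
          · have hne'' : p' ≠ p0 := fun h'' => hp0 (h'' ▸ h')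
            rw [Function.update_of_ne hne', Function.update_of_ne hne'']
            exact hm2 p h p' h' hne
  obtain ⟨m, hm1, hm2⟩ := key Finset.univ
  exact ⟨m, fun p => hm1 p (Finset.mem_univ p),
    fun p p' h => hm2 p (Finset.mem_univ p) p' (Finset.mem_univ p') h⟩

/-! ### the embedding from a clean tuple -/

theorem embed {A B : Type} [Fintype A] [Fintype B] (s q t : ℕ) (r : A → B → Prop)
    (w : Fin q → A) (hw : Nice r (LT s q t) w) (c : Fin t → A) (P : Fin s → Fin q → A)
    (hc : ∀ j, c j ∈ Ft r (LT s q t) w) (hP : ∀ i l, P i l ∈ Ft r (LT s q t) w)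
    (hrich : ∀ j i, Rich r (LT s q t) (MT s q t) (Fin.cons (c j) (P i) : Fin (q + 1) → A))
    (hcc : Function.Injective c) (hPP : Function.Injective fun p : Fin s × Fin q => P p.1 p.2)
    (hcP : ∀ j i l, c j ≠ P i l)
    (h1 : ∀ j j' l, j ≠ j' → ∀ y ∈ cn r (c j) (w l), ¬ r (c j') y)
    (h2 : ∀ j l l', l ≠ l' → ∀ y ∈ cn r (w l) (w l'), ¬ r (c j) y) : SBlow r s q t := by
  have hFt : ∀ {u : A}, u ∈ Ft r (LT s q t) w → ∀ l, Lk r (LT s q t) u (w l) := by
    intro u hu
    unfold Ft at hu
    rw [Finset.mem_filter] at hu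
    exact hu.2
  have hmemcn : ∀ {x x' : A} {y : B}, y ∈ cn r x x' ↔ r x y ∧ r x' y := by
    intro x x' y
    unfold cn
    rw [Finset.mem_filter]
    simp
  choose γ0 hγ0 using fun (j : Fin t) (l : Fin q) => (hFt (hc j) l).2.1
  choose U Yc hU hYc hst using hrich
  obtain ⟨G, hG⟩ : ∃ G : (Fin t × Fin s) → Fin (MT s q t) → Finset (A ⊕ B), G = fun p m =>
    insert (Sum.inl (U p.1 p.2 m)) (Finset.univ.image fun k : Fin (q + 1) =>
      (Sum.inr (Yc p.1 p.2 m k) : A ⊕ B)) := ⟨_, rfl⟩
  obtain ⟨F, hF⟩ : ∃ F : Finset (A ⊕ B), F =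
    ((Finset.univ.image fun j : Fin t => (Sum.inl (c j) : A ⊕ B)) ∪
    (Finset.univ.image fun p : Fin s × Fin q => (Sum.inl (P p.1 p.2) : A ⊕ B))) ∪
    ((Finset.univ.image fun l : Fin q => (Sum.inl (w l) : A ⊕ B)) ∪
    (Finset.univ.image fun p : Fin t × Fin q => (Sum.inr (γ0 p.1 p.2) : A ⊕ B))) := ⟨_, rfl⟩
  have hFcard : F.card ≤ (t + s * q) + (q + t * q) := by
    rw [hF]
    refine le_trans (Finset.card_union_le _ _) ?_
    refine Nat.add_le_add ?_ ?_
    · refine le_trans (Finset.card_union_le _ _) (Nat.add_le_add ?_ ?_)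
      · refine le_trans Finset.card_image_le ?_
        simp
      · refine le_trans Finset.card_image_le ?_
        simp
    · refine le_trans (Finset.card_union_le _ _) (Nat.add_le_add ?_ ?_)
      · refine le_trans Finset.card_image_le ?_
        simp
      · refine le_trans Finset.card_image_le ?_
        simp
  obtain ⟨m, hm1, hm2⟩ := greedy (MT s q t) (q + 2) G F (by
      intro p a b hab
      rw [hG]
      simp only
      rw [Finset.disjoint_left]
      intro x hx hx'
      rw [Finset.mem_insert, Finset.mem_image] at hx hx'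
      rcases hx with rfl | ⟨k, -, rfl⟩
      · rcases hx' with h | ⟨k', -, h⟩
        · exact hab (hU _ _ (Sum.inl.inj h))
        · exact absurd h (by simp)
      · rcases hx' with h | ⟨k', -, h⟩
        · exact absurd h (by simp)
        · have h3 : Yc p.1 p.2 b k' = Yc p.1 p.2 a k := Sum.inr.inj h
          have h4 := @hYc p.1 p.2 (b, k') (a, k) h3
          exact hab (congrArg Prod.fst h4).symm)
    (by
      intro p a
      rw [hG]
      simp only
      refine le_trans (Finset.card_insert_le _ _) ?_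
      have : (Finset.univ.image fun k : Fin (q + 1) =>
        (Sum.inr (Yc p.1 p.2 a k) : A ⊕ B)).card ≤ q + 1 := by
        refine le_trans Finset.card_image_le ?_
        simp
      omega)
    (by
      rw [Fintype.card_prod, Fintype.card_fin, Fintype.card_fin]
      have e1 : (t + s * q) + (q + t * q) + t * s * (q + 2) + 1 = MT s q t := by
        unfold MT hh
        ring
      omega)
  have hmemF : ∀ x, x ∈ F ↔ ((∃ j, Sum.inl (c j) = x) ∨ (∃ i l, Sum.inl (P i l) = x)) ∨
      (∃ l, Sum.inl (w l) = x) ∨ ∃ j l, Sum.inr (γ0 j l) = x := by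
    intro x
    rw [hF]
    simp only [Finset.mem_union, Finset.mem_image, Finset.mem_univ, true_and, Prod.exists]
  have hGu : ∀ p a, Sum.inl (U p.1 p.2 a) ∈ G p a := by
    intro p a
    rw [hG]
    exact Finset.mem_insert_self _ _
  have hGy : ∀ p a k, Sum.inr (Yc p.1 p.2 a k) ∈ G p a := by
    intro p a k
    rw [hG]
    exact Finset.mem_insert_of_mem (Finset.mem_image.2 ⟨k, Finset.mem_univ _, rfl⟩)
  -- facts on the chosen gadgets
  obtain ⟨u', hu'⟩ : ∃ u' : Fin t → Fin s → A, u' = fun j i => U j i (m (j, i)) := ⟨_, rfl⟩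
  obtain ⟨y', hy'⟩ : ∃ y' : Fin t → Fin s → Fin (q + 1) → B,
    y' = fun j i k => Yc j i (m (j, i)) k := ⟨_, rfl⟩
  have hstar : ∀ j i, Star r (LT s q t) (u' j i) (Fin.cons (c j) (P i) : Fin (q + 1) → A)
      (y' j i) := by
    intro j i
    rw [hu', hy']
    exact hst j i (m (j, i))
  have a1 : ∀ j i, (∀ j', u' j i ≠ c j') ∧ (∀ i' l, u' j i ≠ P i' l) ∧ (∀ l, u' j i ≠ w l) := by
    intro j i
    have h3 := Finset.disjoint_left.1 (hm1 (j, i)) (hGu (j, i) (m (j, i)))
    rw [hmemF] at h3
    push Not at h3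
    obtain ⟨⟨h4, h5⟩, h6, h7⟩ := h3
    rw [hu']
    refine ⟨fun j' h => h4 j' ?_, fun i' l h => h5 i' l ?_, fun l h => h6 l ?_⟩
    · exact congrArg Sum.inl h.symm
    · exact congrArg Sum.inl h.symm
    · exact congrArg Sum.inl h.symm
  have b1 : ∀ j i k j' l, y' j i k ≠ γ0 j' l := by
    intro j i k j' l
    have h3 := Finset.disjoint_left.1 (hm1 (j, i)) (hGy (j, i) (m (j, i)) k)
    rw [hmemF] at h3
    push Not at h3
    obtain ⟨-, h6, h7⟩ := h3
    rw [hy']
    intro h
    exact h7 j' l (congrArg Sum.inr h.symm)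
  have a2 : ∀ j i j' i', u' j i = u' j' i' → (j, i) = (j', i') := by
    intro j i j' i' h
    by_contra hne
    have h3 := Finset.disjoint_left.1 (hm2 (j, i) (j', i') hne) (hGu (j, i) (m (j, i)))
    apply h3
    have h4 : U j i (m (j, i)) = U j' i' (m (j', i')) := by
      rw [hu'] at h
      exact h
    have h5 := hGu (j', i') (m (j', i'))
    rw [← h4] at h5
    exact h5
  have b2 : ∀ j i k j' i' k', y' j i k = y' j' i' k' → j = j' ∧ i = i' ∧ k = k' := by
    intro j i k j' i' k' h
    have h4 : Yc j i (m (j, i)) k = Yc j' i' (m (j', i')) k' := by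
      rw [hy'] at h
      exact h
    by_cases hne : (j, i) = (j', i')
    · obtain ⟨rfl, rfl⟩ := Prod.mk.inj hne
      have h5 := @hYc j i (m (j, i), k) (m (j, i), k') h4
      exact ⟨rfl, rfl, congrArg Prod.snd h5⟩
    · exfalso
      have h3 := Finset.disjoint_left.1 (hm2 (j, i) (j', i') hne) (hGy (j, i) (m (j, i)) k)
      apply h3
      have h5 := hGy (j', i') (m (j', i')) k'
      rw [← h4] at h5
      exact h5
  have g1 : ∀ j l j' l', γ0 j l = γ0 j' l' → j = j' ∧ l = l' := by
    intro j l j' l' h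
    have h3 := hmemcn.1 (hγ0 j l)
    have h4 := hmemcn.1 (hγ0 j' l')
    rw [← h] at h4
    have hj : j = j' := by
      by_contra hne
      exact h1 j j' l hne _ (hγ0 j l) h4.1
    refine ⟨hj, ?_⟩
    by_contra hne
    exact h2 j l l' hne (γ0 j l) (hmemcn.2 ⟨h3.2, h4.2⟩) h3.1
  refine ⟨fun j x => Option.elim x (c j) (u' j), fun x l => Option.elim x (w l) (fun i => P i l),
    fun j i => y' j i 0, fun j x l => Option.elim x (γ0 j l) (fun i => y' j i l.succ),
    ?_, ?_, ?_, ?_, ?_, ?_, ?_, ?_⟩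
  · intro j i
    exact ((hstar j i).1 0).2
  · intro j i
    exact ((hstar j i).1 0).1
  · intro j x l
    cases x with
    | none => exact (hmemcn.1 (hγ0 j l)).1
    | some i => exact ((hstar j i).1 l.succ).1
  · intro j x l
    cases x with
    | none => exact (hmemcn.1 (hγ0 j l)).2
    | some i =>
      have h3 := ((hstar j i).1 l.succ).2
      rw [Fin.cons_succ] at h3
      exact h3
  · rintro ⟨j, x⟩ ⟨j', x'⟩ h
    cases x with
    | none =>
      cases x' with
      | none =>
        have h3 : c j = c j' := h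
        rw [hcc h3]
      | some i' =>
        have h3 : c j = u' j' i' := h
        exact absurd h3.symm ((a1 j' i').1 j)
    | some i =>
      cases x' with
      | none =>
        have h3 : u' j i = c j' := h
        exact absurd h3 ((a1 j i).1 j')
      | some i' =>
        have h3 : u' j i = u' j' i' := h
        obtain ⟨rfl, rfl⟩ := Prod.mk.inj (a2 _ _ _ _ h3)
        rfl
  · rintro ⟨x, l⟩ ⟨x', l'⟩ h
    cases x with
    | none =>
      cases x' with
      | none =>
        have h3 : w l = w l' := h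
        by_cases hl : l = l'
        · rw [hl]
        · exact absurd h3 (hw l l' hl).1
      | some i' =>
        have h3 : w l = P i' l' := h
        exact absurd h3.symm (hFt (hP i' l') l).1
    | some i =>
      cases x' with
      | none =>
        have h3 : P i l = w l' := h
        exact absurd h3 (hFt (hP i l) l').1
      | some i' =>
        have h3 : P i l = P i' l' := h
        have h4 := @hPP (i, l) (i', l') h3
        obtain ⟨rfl, rfl⟩ := Prod.mk.inj h4
        rfl
  · intro j x x' l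
    cases x with
    | none =>
      cases x' with
      | none => exact (hFt (hc j) l).1
      | some i' => exact hcP j i' l
    | some i =>
      cases x' with
      | none => exact (a1 j i).2.2 l
      | some i' => exact (a1 j i).2.1 i' l
  · rintro ⟨j, v⟩ ⟨j', v'⟩ h
    rcases v with i | ⟨x, l⟩
    · rcases v' with i' | ⟨x', l'⟩
      · have h3 : y' j i 0 = y' j' i' 0 := h
        obtain ⟨rfl, rfl, -⟩ := b2 _ _ _ _ _ _ h3
        rfl
      · cases x' with
        | none =>
          have h3 : y' j i 0 = γ0 j' l' := h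
          exact absurd h3 (b1 _ _ _ _ _)
        | some i' =>
          have h3 : y' j i 0 = y' j' i' l'.succ := h
          exact absurd (b2 _ _ _ _ _ _ h3).2.2 (Fin.succ_ne_zero l').symm
    · rcases v' with i' | ⟨x', l'⟩
      · cases x with
        | none =>
          have h3 : γ0 j l = y' j' i' 0 := h
          exact absurd h3.symm (b1 _ _ _ _ _)
        | some i =>
          have h3 : y' j i l.succ = y' j' i' 0 := h
          exact absurd (b2 _ _ _ _ _ _ h3).2.2 (Fin.succ_ne_zero l)
      · cases x with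
        | none =>
          cases x' with
          | none =>
            have h3 : γ0 j l = γ0 j' l' := h
            obtain ⟨rfl, rfl⟩ := g1 _ _ _ _ h3
            rfl
          | some i' =>
            have h3 : γ0 j l = y' j' i' l'.succ := h
            exact absurd h3.symm (b1 _ _ _ _ _)
        | some i =>
          cases x' with
          | none =>
            have h3 : y' j i l.succ = γ0 j' l' := h
            exact absurd h3 (b1 _ _ _ _ _)
          | some i' =>
            have h3 : y' j i l.succ = y' j' i' l'.succ := h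
            obtain ⟨rfl, rfl, h5⟩ := b2 _ _ _ _ _ _ h3
            have h6 := Fin.succ_injective _ h5
            rw [h6]

/-! ### existence of a clean tuple -/

theorem prod2 {s t : ℕ} (P : Fin s → Fin t → Prop) :
    (∏ i, ∏ j, if P i j then (1 : ℝ) else 0) = if ∀ i j, P i j then 1 else 0 := by
  by_cases h : ∀ i j, P i j
  · rw [if_pos h]
    exact Finset.prod_eq_one fun i _ => Finset.prod_eq_one fun j _ => if_pos (h i j)
  · rw [if_neg h]
    push Not at h
    obtain ⟨i, j, hij⟩ := h
    exact Finset.prod_eq_zero (Finset.mem_univ i)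
      (Finset.prod_eq_zero (Finset.mem_univ j) (if_neg hij))

/-- number of tuples all of whose pairs are related -/
theorem good_card {X : Type} [Fintype X] [Nonempty X] (s q t : ℕ) (f : X → (Fin q → X) → Prop)
    (β : ℝ) (hβ : 0 ≤ β)
    (h : β * (Fintype.card X : ℝ) ^ (q + 1) ≤
      (cnt (fun p : X × (Fin q → X) => f p.1 p.2) : ℝ)) :
    β ^ (t * s) * (Fintype.card X : ℝ) ^ (t + s * q) ≤
      (cnt (fun φ : Fin t ⊕ Fin s × Fin q → X =>
        ∀ i j, f (φ (Sum.inl j)) (fun l => φ (Sum.inr (i, l)))) : ℝ) := by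
  rw [← cnt_eq] at h
  rw [← cnt_eq]
  have h1 := sido (X := X) (W := Fin q → X) (fun x p => if f x p then (1 : ℝ) else 0)
    (fun x p => by split_ifs <;> norm_num) β hβ (by
      rw [Fintype.card_fun, Fintype.card_fin]
      push_cast
      have e1 : β * (Fintype.card X : ℝ) * (Fintype.card X : ℝ) ^ q =
          β * (Fintype.card X : ℝ) ^ (q + 1) := by ring
      rw [e1]
      refine le_trans h (le_of_eq ?_)
      rw [Finset.card_filter]
      push_cast
      rw [Fintype.sum_prod_type]) t s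
  rw [Fintype.card_fun, Fintype.card_fin] at h1
  push_cast at h1
  have e2 : β ^ (t * s) * (Fintype.card X : ℝ) ^ (t + s * q) =
      β ^ (t * s) * (Fintype.card X : ℝ) ^ t * ((Fintype.card X : ℝ) ^ q) ^ s := by
    rw [pow_add, ← pow_mul, mul_comm q s]
    ring
  rw [e2]
  refine le_trans h1 (le_of_eq ?_)
  rw [Finset.card_filter]
  push_cast
  let e : (Fin t ⊕ Fin s × Fin q → X) ≃ (Fin t → X) × (Fin s → Fin q → X) :=
    { toFun := fun φ => (fun j => φ (Sum.inl j), fun i l => φ (Sum.inr (i, l)))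
      invFun := fun p => Sum.elim p.1 (fun il => p.2 il.1 il.2)
      left_inv := by
        intro φ
        funext v
        rcases v with j | ⟨i, l⟩ <;> rfl
      right_inv := by
        intro p
        rfl }
  rw [← Fintype.sum_prod_type' (fun (c : Fin t → X) (P : Fin s → Fin q → X) =>
    ∏ i, ∏ j, if f (c j) (P i) then (1 : ℝ) else 0)]
  rw [← e.sum_comp]
  refine Finset.sum_congr rfl fun φ _ => ?_
  rw [prod2]
  rfl

theorem floor_bd {A B X : Type} [Fintype X] (v : X → A) (r : A → B → Prop) (Y : Finset B) (L : ℕ)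
    (a : ℝ) (ha : 0 ≤ a) (hY : Y.card ≤ L)
    (h : ∀ y ∈ Y, (cnt (fun b : X => r (v b) y) : ℝ) ≤ a) :
    cnt (fun b : X => ∃ y ∈ Y, r (v b) y) ≤ ⌊(L : ℝ) * a⌋₊ := by
  simp only [← cnt_eq] at h ⊢
  apply Nat.le_floor
  have h1 : (Finset.univ.filter fun b : X => ∃ y ∈ Y, r (v b) y) ⊆
      Y.biUnion fun y => Finset.univ.filter fun b : X => r (v b) y := by
    intro b hb
    rw [Finset.mem_filter] at hb
    obtain ⟨-, y, hy, hr⟩ := hb
    rw [Finset.mem_biUnion]
    exact ⟨y, hy, Finset.mem_filter.2 ⟨Finset.mem_univ _, hr⟩⟩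
  have h2 := le_trans (Finset.card_le_card h1) Finset.card_biUnion_le
  have h3 : ((Finset.univ.filter fun b : X => ∃ y ∈ Y, r (v b) y).card : ℝ) ≤
      ∑ y ∈ Y, ((Finset.univ.filter fun b : X => r (v b) y).card : ℝ) := by exact_mod_cast h2
  have h4 := le_trans h3 (Finset.sum_le_sum h)
  rw [Finset.sum_const, nsmul_eq_mul] at h4
  refine le_trans h4 ?_
  have h5 : (Y.card : ℝ) ≤ L := by exact_mod_cast hY
  exact mul_le_mul_of_nonneg_right h5 ha

theorem union_bd {Ω K : Type} [Fintype Ω] [Fintype K] (P : K → Ω → Prop) (D : ℕ)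
    (h : ∀ k, cnt (fun φ => P k φ) ≤ D) :
    cnt (fun φ : Ω => ∃ k, P k φ) ≤ Fintype.card K * D := by
  simp only [← cnt_eq] at h ⊢
  have h1 : (Finset.univ.filter fun φ : Ω => ∃ k, P k φ) ⊆
      Finset.univ.biUnion fun k => Finset.univ.filter fun φ => P k φ := by
    intro φ hφ
    rw [Finset.mem_filter] at hφ
    obtain ⟨-, k, hk⟩ := hφ
    rw [Finset.mem_biUnion]
    exact ⟨k, Finset.mem_univ _, Finset.mem_filter.2 ⟨Finset.mem_univ _, hk⟩⟩
  refine le_trans (Finset.card_le_card h1) ?_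
  refine le_trans (Finset.card_biUnion_le_card_mul _ _ _ fun k _ => h k) ?_
  rw [Finset.card_univ]

/-- a good tuple with neither repetitions nor conflicts -/
theorem exists_clean {A B : Type} [Fintype A] [Fintype B] (s q t L M : ℕ) (ht : 0 < t)
    (r : A → B → Prop) (w : Fin q → A) (hw : Nice r L w) (β δ : ℝ) (hβ : 0 < β) (hδ : 0 < δ)
    (hδ2 : ((t * t * q + t * q * q : ℕ) : ℝ) * ((L : ℝ) * δ) ≤ β ^ (t * s) / 4)
    (hz : 4 * ((t + s * q : ℕ) : ℝ) ^ 2 < β ^ (t * s) * ((Ft r L w).card : ℝ))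
    (hdeg : ∀ l y, r (w l) y → (((Ft r L w).filter (fun u => r u y)).card : ℝ) ≤
      δ * ((Ft r L w).card : ℝ))
    (hmany : β * ((Ft r L w).card : ℝ) ^ (q + 1) ≤
      ((Finset.univ.filter (fun Q : Fin (q + 1) → A =>
        (∀ i, Q i ∈ Ft r L w) ∧ Rich r L M Q)).card : ℝ)) :
    ∃ φ : Fin t ⊕ Fin s × Fin q → A, (∀ v, φ v ∈ Ft r L w) ∧ Function.Injective φ ∧
      (∀ j i, Rich r L M (Fin.cons (φ (Sum.inl j)) (fun l => φ (Sum.inr (i, l))) :
        Fin (q + 1) → A)) ∧
      (∀ j j' l, j ≠ j' → ∀ y ∈ cn r (φ (Sum.inl j)) (w l), ¬ r (φ (Sum.inl j')) y) ∧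
      (∀ j l l', l ≠ l' → ∀ y ∈ cn r (w l) (w l'), ¬ r (φ (Sum.inl j)) y) := by
  have hκ : 0 < β ^ (t * s) := pow_pos hβ _
  have hmemcn : ∀ {x x' : A} {y : B}, y ∈ cn r x x' ↔ r x y ∧ r x' y := by
    intro x x' y
    unfold cn
    rw [Finset.mem_filter]
    simp
  have hFt : ∀ {u : A}, u ∈ Ft r L w → ∀ l, Lk r L u (w l) := by
    intro u hu
    unfold Ft at hu
    rw [Finset.mem_filter] at hu
    exact hu.2
  obtain ⟨z, hzdef⟩ : ∃ z : ℕ, z = (Ft r L w).card := ⟨_, rfl⟩
  rw [← hzdef] at hz hmany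
  simp only [← hzdef] at hdeg
  have hzpos : 0 < z := by
    rcases Nat.eq_zero_or_pos z with h | h
    · rw [h, Nat.cast_zero, mul_zero] at hz
      nlinarith [sq_nonneg (((t + s * q : ℕ) : ℝ))]
    · exact h
  have hcX : Fintype.card {a // a ∈ Ft r L w} = z := by
    rw [Fintype.card_coe, hzdef]
  have hne : Nonempty {a // a ∈ Ft r L w} := by
    rw [← Fintype.card_pos_iff, hcX]
    exact hzpos
  -- the number of good tuples
  have hgood := good_card (X := {a // a ∈ Ft r L w}) s q t
    (fun x p => Rich r L M (Fin.cons x.1 (fun l => (p l).1) : Fin (q + 1) → A)) β hβ.le (by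
      rw [hcX]
      refine le_trans hmany ?_
      rw [← cnt_eq]
      have h1 : (Finset.univ.filter (fun Q : Fin (q + 1) → A =>
          (∀ i, Q i ∈ Ft r L w) ∧ Rich r L M Q)) ⊆
          (Finset.univ.filter fun p : {a // a ∈ Ft r L w} × (Fin q → {a // a ∈ Ft r L w}) =>
            Rich r L M (Fin.cons p.1.1 (fun l => (p.2 l).1) : Fin (q + 1) → A)).image
            (fun p => (Fin.cons p.1.1 (fun l => (p.2 l).1) : Fin (q + 1) → A)) := by
        intro Q hQ
        rw [Finset.mem_filter] at hQ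
        obtain ⟨-, hQ1, hQ2⟩ := hQ
        have e1 : (Fin.cons (Q 0) (fun l : Fin q => Q l.succ) : Fin (q + 1) → A) = Q :=
          Fin.cons_self_tail Q
        rw [Finset.mem_image]
        refine ⟨(⟨Q 0, hQ1 0⟩, fun l => ⟨Q l.succ, hQ1 _⟩), ?_, e1⟩
        rw [Finset.mem_filter]
        refine ⟨Finset.mem_univ _, ?_⟩
        simp only
        rw [e1]
        exact hQ2
      exact_mod_cast le_trans (Finset.card_le_card h1) Finset.card_image_le)
  rw [hcX] at hgood
  by_contra hcon
  push Not at hcon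
  -- bad tuples
  obtain ⟨D, hD⟩ : ∃ D : ℕ, D = ⌊(L : ℝ) * (δ * z)⌋₊ := ⟨_, rfl⟩
  have hδz : 0 ≤ δ * (z : ℝ) := by positivity
  have hdegX : ∀ l y, r (w l) y →
      (cnt (fun b : {a // a ∈ Ft r L w} => r b.1 y) : ℝ) ≤ δ * z := by
    intro l y hy
    refine le_trans ?_ (hdeg l y hy)
    rw [← cnt_eq]
    have h1 : (Finset.univ.filter fun b : {a // a ∈ Ft r L w} => r b.1 y).card ≤
        ((Ft r L w).filter (fun u => r u y)).card := by
      refine Finset.card_le_card_of_injOn (fun b => b.1) ?_ ?_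
      · intro b hb
        have hb' := (Finset.mem_filter.1 hb).2
        exact Finset.mem_filter.2 ⟨b.2, hb'⟩
      · intro a _ b _ hab
        exact Subtype.ext hab
    exact_mod_cast h1
  have hI : Fintype.card (Fin t ⊕ Fin s × Fin q) = t + s * q := by
    rw [Fintype.card_sum, Fintype.card_prod, Fintype.card_fin, Fintype.card_fin, Fintype.card_fin]
  have hB1 : cnt (fun φ : Fin t ⊕ Fin s × Fin q → {a // a ∈ Ft r L w} =>
      ∃ k : (Fin t ⊕ Fin s × Fin q) × (Fin t ⊕ Fin s × Fin q), k.1 ≠ k.2 ∧ φ k.1 = φ k.2) ≤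
      (t + s * q) ^ 2 * (1 * z ^ (t + s * q - 1)) := by
    refine le_trans (union_bd (fun (k : (Fin t ⊕ Fin s × Fin q) × (Fin t ⊕ Fin s × Fin q))
      (φ : Fin t ⊕ Fin s × Fin q → {a // a ∈ Ft r L w}) => k.1 ≠ k.2 ∧ φ k.1 = φ k.2)
      (1 * z ^ (t + s * q - 1)) ?_) ?_
    · intro k
      have h1 := cnt_update k.2 (fun φ : Fin t ⊕ Fin s × Fin q → {a // a ∈ Ft r L w} =>
        k.1 ≠ k.2 ∧ φ k.1 = φ k.2) 1 (by
          intro φ
          rw [← cnt_eq, Finset.card_le_one]
          intro a ha b hb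
          obtain ⟨-, hk, ha⟩ := Finset.mem_filter.1 ha
          obtain ⟨-, -, hb⟩ := Finset.mem_filter.1 hb
          rw [Function.update_of_ne hk, Function.update_self] at ha hb
          rw [← ha, ← hb])
      rw [hI, hcX] at h1
      exact h1
    · rw [Fintype.card_prod, hI, sq]
  have hB2 : cnt (fun φ : Fin t ⊕ Fin s × Fin q → {a // a ∈ Ft r L w} =>
      ∃ k : Fin t × Fin t × Fin q, k.1 ≠ k.2.1 ∧
        ∃ y ∈ cn r (φ (Sum.inl k.1)).1 (w k.2.2), r (φ (Sum.inl k.2.1)).1 y) ≤
      t * (t * q) * (D * z ^ (t + s * q - 1)) := by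
    refine le_trans (union_bd (fun (k : Fin t × Fin t × Fin q)
      (φ : Fin t ⊕ Fin s × Fin q → {a // a ∈ Ft r L w}) => k.1 ≠ k.2.1 ∧
        ∃ y ∈ cn r (φ (Sum.inl k.1)).1 (w k.2.2), r (φ (Sum.inl k.2.1)).1 y)
      (D * z ^ (t + s * q - 1)) ?_) ?_
    · intro k
      have h1 := cnt_update (Sum.inl k.2.1)
        (fun φ : Fin t ⊕ Fin s × Fin q → {a // a ∈ Ft r L w} => k.1 ≠ k.2.1 ∧
          ∃ y ∈ cn r (φ (Sum.inl k.1)).1 (w k.2.2), r (φ (Sum.inl k.2.1)).1 y) D (by
          intro φ
          by_cases hk : k.1 = k.2.1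
          · refine le_trans (cnt_mono _ (fun _ => False) fun b hb => hb.1 hk) ?_
            rw [cnt_false]
            exact Nat.zero_le _
          · have hk' : (Sum.inl k.1 : Fin t ⊕ Fin s × Fin q) ≠ Sum.inl k.2.1 :=
              fun h => hk (Sum.inl.inj h)
            rw [hD]
            refine le_trans (cnt_mono _ _ ?_) (floor_bd
              (fun b : {a // a ∈ Ft r L w} => b.1) r (cn r (φ (Sum.inl k.1)).1 (w k.2.2)) L
              (δ * z) hδz (hFt (φ (Sum.inl k.1)).2 k.2.2).2.2.le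
              (fun y hy => hdegX k.2.2 y (hmemcn.1 hy).2))
            rintro b ⟨-, y, hy, hb⟩
            rw [Function.update_of_ne hk'] at hy
            rw [Function.update_self] at hb
            exact ⟨y, hy, hb⟩)
      rw [hI, hcX] at h1
      exact h1
    · rw [Fintype.card_prod, Fintype.card_prod, Fintype.card_fin, Fintype.card_fin]
  have hB3 : cnt (fun φ : Fin t ⊕ Fin s × Fin q → {a // a ∈ Ft r L w} =>
      ∃ k : Fin t × Fin q × Fin q, k.2.1 ≠ k.2.2 ∧
        ∃ y ∈ cn r (w k.2.1) (w k.2.2), r (φ (Sum.inl k.1)).1 y) ≤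
      t * (q * q) * (D * z ^ (t + s * q - 1)) := by
    refine le_trans (union_bd (fun (k : Fin t × Fin q × Fin q)
      (φ : Fin t ⊕ Fin s × Fin q → {a // a ∈ Ft r L w}) => k.2.1 ≠ k.2.2 ∧
        ∃ y ∈ cn r (w k.2.1) (w k.2.2), r (φ (Sum.inl k.1)).1 y)
      (D * z ^ (t + s * q - 1)) ?_) ?_
    · intro k
      have h1 := cnt_update (Sum.inl k.1)
        (fun φ : Fin t ⊕ Fin s × Fin q → {a // a ∈ Ft r L w} => k.2.1 ≠ k.2.2 ∧
          ∃ y ∈ cn r (w k.2.1) (w k.2.2), r (φ (Sum.inl k.1)).1 y) D (by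
          intro φ
          by_cases hk : k.2.1 = k.2.2
          · refine le_trans (cnt_mono _ (fun _ => False) fun b hb => hb.1 hk) ?_
            rw [cnt_false]
            exact Nat.zero_le _
          · rw [hD]
            refine le_trans (cnt_mono _ _ ?_) (floor_bd
              (fun b : {a // a ∈ Ft r L w} => b.1) r (cn r (w k.2.1) (w k.2.2)) L
              (δ * z) hδz (hw k.2.1 k.2.2 hk).2.le
              (fun y hy => hdegX k.2.2 y (hmemcn.1 hy).2))
            rintro b ⟨-, y, hy, hb⟩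
            rw [Function.update_self] at hb
            exact ⟨y, hy, hb⟩)
      rw [hI, hcX] at h1
      exact h1
    · rw [Fintype.card_prod, Fintype.card_prod, Fintype.card_fin, Fintype.card_fin]
  -- every good tuple is bad
  have hsub : cnt (fun φ : Fin t ⊕ Fin s × Fin q → {a // a ∈ Ft r L w} =>
      ∀ i j, Rich r L M (Fin.cons (φ (Sum.inl j)).1 (fun l => (φ (Sum.inr (i, l))).1) :
        Fin (q + 1) → A)) ≤
      (t + s * q) ^ 2 * (1 * z ^ (t + s * q - 1)) + t * (t * q) * (D * z ^ (t + s * q - 1)) +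
        t * (q * q) * (D * z ^ (t + s * q - 1)) := by
    refine le_trans (cnt_or3 _ _ _ _ ?_) (Nat.add_le_add (Nat.add_le_add hB1 hB2) hB3)
    intro φ hφ'
    by_cases h1 : ∃ k : (Fin t ⊕ Fin s × Fin q) × (Fin t ⊕ Fin s × Fin q),
        k.1 ≠ k.2 ∧ φ k.1 = φ k.2
    · exact Or.inl h1
    by_cases h2 : ∃ k : Fin t × Fin t × Fin q, k.1 ≠ k.2.1 ∧
        ∃ y ∈ cn r (φ (Sum.inl k.1)).1 (w k.2.2), r (φ (Sum.inl k.2.1)).1 y
    · exact Or.inr (Or.inl h2)
    refine Or.inr (Or.inr ?_)
    obtain ⟨j, l, l', hll, y, hy, hr⟩ := hcon (fun v => (φ v).1) (fun v => (φ v).2)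
      (by
        intro v v' hv
        by_contra hne'
        exact h1 ⟨(v, v'), hne', Subtype.ext hv⟩)
      (fun j i => hφ' i j)
      (by
        intro j j' l hj y hy hr
        exact h2 ⟨(j, j', l), hj, y, hy, hr⟩)
    exact ⟨(j, l, l'), hll, y, hy, hr⟩
  -- numbers
  have hsubR : (cnt (fun φ : Fin t ⊕ Fin s × Fin q → {a // a ∈ Ft r L w} =>
      ∀ i j, Rich r L M (Fin.cons (φ (Sum.inl j)).1 (fun l => (φ (Sum.inr (i, l))).1) :
        Fin (q + 1) → A)) : ℝ) ≤
      ((t + s * q : ℕ) : ℝ) ^ 2 * (z : ℝ) ^ (t + s * q - 1) +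
        ((t * t * q + t * q * q : ℕ) : ℝ) * (D : ℝ) * (z : ℝ) ^ (t + s * q - 1) := by
    refine le_trans (Nat.cast_le.2 hsub) (le_of_eq ?_)
    push_cast
    ring
  have hfin := le_trans hgood hsubR
  have hDle : (D : ℝ) ≤ (L : ℝ) * (δ * z) := by
    rw [hD]
    exact Nat.floor_le (by positivity)
  have hzpow : (z : ℝ) ^ (t + s * q) = (z : ℝ) ^ (t + s * q - 1) * z := by
    rw [← pow_succ]
    congr 1
    omega
  have hzR : (0 : ℝ) < z := by exact_mod_cast hzpos
  have hpp : (0 : ℝ) < (z : ℝ) ^ (t + s * q - 1) := pow_pos hzR _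
  rw [hzpow] at hfin
  have h5 : β ^ (t * s) * z ≤ ((t + s * q : ℕ) : ℝ) ^ 2 +
      ((t * t * q + t * q * q : ℕ) : ℝ) * (D : ℝ) := by
    refine le_of_mul_le_mul_right ?_ hpp
    linarith
  have h6 : ((t * t * q + t * q * q : ℕ) : ℝ) * (D : ℝ) ≤ β ^ (t * s) / 4 * z := by
    calc ((t * t * q + t * q * q : ℕ) : ℝ) * (D : ℝ)
        ≤ ((t * t * q + t * q * q : ℕ) : ℝ) * ((L : ℝ) * (δ * z)) :=
          mul_le_mul_of_nonneg_left hDle (Nat.cast_nonneg _)
      _ = (((t * t * q + t * q * q : ℕ) : ℝ) * ((L : ℝ) * δ)) * z := by ring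
      _ ≤ β ^ (t * s) / 4 * z := mul_le_mul_of_nonneg_right hδ2 hzR.le
  have h7 : 0 < β ^ (t * s) * z := mul_pos hκ hzR
  linarith

theorem main : S_EMB3 := by
  intro s q t β ht hβ
  obtain ⟨κ, hκ⟩ : ∃ κ : ℝ, κ = β ^ (t * s) := ⟨_, rfl⟩
  have hκ0 : 0 < κ := by rw [hκ]; exact pow_pos hβ _
  obtain ⟨E, hE⟩ : ∃ E : ℝ, E = ((t * t * q + t * q * q : ℕ) : ℝ) * (LT s q t : ℝ) + 1 := ⟨_, rfl⟩
  have hE0 : 0 < E := by rw [hE]; positivity
  obtain ⟨N2, hN2⟩ := exists_nat_gt (4 * ((t + s * q : ℕ) : ℝ) ^ 2 / κ)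
  refine ⟨κ / (4 * E), N2, by positivity, ?_⟩
  intro A B _ _ r w ⟨hNice, hcard, hdeg, hmany⟩
  obtain ⟨φ, hφ1, hφ2, hφ3, hφ4, hφ5⟩ := exists_clean s q t (LT s q t) (MT s q t) ht r w hNice β
    (κ / (4 * E)) hβ (by positivity) (by
      rw [← hκ]
      have h1 : ((t * t * q + t * q * q : ℕ) : ℝ) * ((LT s q t : ℝ) * (κ / (4 * E))) =
          (((t * t * q + t * q * q : ℕ) : ℝ) * (LT s q t : ℝ)) / E * (κ / 4) := by
        field_simp
      rw [h1]
      have h2 : (((t * t * q + t * q * q : ℕ) : ℝ) * (LT s q t : ℝ)) / E ≤ 1 := by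
        rw [div_le_one hE0, hE]
        linarith
      have h3 : 0 ≤ κ / 4 := by positivity
      calc (((t * t * q + t * q * q : ℕ) : ℝ) * (LT s q t : ℝ)) / E * (κ / 4) ≤ 1 * (κ / 4) :=
            mul_le_mul_of_nonneg_right h2 h3
        _ = κ / 4 := one_mul _) (by
      rw [← hκ]
      have h1 : (N2 : ℝ) ≤ ((Ft r (LT s q t) w).card : ℝ) := by exact_mod_cast hcard
      have h2 := lt_of_lt_of_le hN2 h1
      rw [div_lt_iff₀ hκ0] at h2
      linarith) hdeg hmany
  refine embed s q t r w hNice (fun j => φ (Sum.inl j)) (fun i l => φ (Sum.inr (i, l)))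
    (fun j => hφ1 _) (fun i l => hφ1 _) (fun j i => hφ3 j i) ?_ ?_ ?_ hφ4 hφ5
  · intro a b hab
    exact Sum.inl.inj (hφ2 hab)
  · intro a b hab
    exact Sum.inr.inj (hφ2 hab)
  · intro j i l hab
    exact absurd (hφ2 hab) (by simp)

end Pool.Agent.W239.TE3E
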