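import Pool.Agent.W792.GK.Stm

/-! Project GK: moments of `T + M` on `ℓ²` for a trigonometric polynomial symbol. -/

set_option autoImplicit false

namespace Pool.Agent.W239.GKMop

open Pool.Agent.W792.GK

theorem tsum_hop {Γ : Type} [AddCommGroup Γ] (h : Γ →₀ ℂ) (u : Γ → ℂ) (x : Γ) :
    ∑' y, h (x - y) * u y = h.sum fun y c => c * u (x - y) := by
  have h1 : ∑' y, h (x - y) * u y = ∑' y, h y * u (x - y) := by
    rw [← (Equiv.subLeft x).tsum_eq (fun y => h y * u (x - y))]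
    apply tsum_congr
    intro y
    simp [Equiv.subLeft]
  rw [h1, tsum_eq_sum (s := h.support)]
  · rfl
  · intro y hy
    rw [Finsupp.notMem_support_iff.1 hy, zero_mul]

/-- GK-MOP. -/
theorem main : S_COEF → S_MOP := by
  intro hcoef ι _ _ h K hK T hT R v M hM n
  have hc := hcoef ι h K hK
  have step : ∀ (u : l2 (ι → ℤ)), (fun x => (((T + M) u : l2 (ι → ℤ)) : (ι → ℤ) → ℂ) x) =
      stp h (fun x => clamp R (v x)) (fun y => (u : (ι → ℤ) → ℂ) y) := by
    intro u
    funext x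
    have e1 : (((T + M) u : l2 (ι → ℤ)) : (ι → ℤ) → ℂ) x =
        ((T u : l2 (ι → ℤ)) : (ι → ℤ) → ℂ) x + ((M u : l2 (ι → ℤ)) : (ι → ℤ) → ℂ) x := by
      rw [add_apply, lp.coeFn_add, Pi.add_apply]
    rw [e1, hT.2.2 u x, hM.2.2 u x, stp]
    congr 1
    rw [← tsum_hop h (fun y => (u : (ι → ℤ) → ℂ) y) x]
    apply tsum_congr
    intro y
    rw [hc]
  have it : ∀ (n : ℕ) (u : l2 (ι → ℤ)),
      (fun x => ((((T + M) ^ n) u : l2 (ι → ℤ)) : (ι → ℤ) → ℂ) x) =
      (stp h (fun x => clamp R (v x)))^[n] (fun y => (u : (ι → ℤ) → ℂ) y) := by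
    intro n
    induction n with
    | zero => intro u; rfl
    | succ n ih =>
      intro u
      rw [Function.iterate_succ_apply', ← ih u, ← step, pow_succ']
      rfl
  have h2 := congrFun (it n (lp.single 2 (0 : ι → ℤ) (1 : ℂ))) 0
  rw [mom]
  refine h2.trans ?_
  have h3 : (fun y => ((lp.single 2 (0 : ι → ℤ) (1 : ℂ) : l2 (ι → ℤ)) : (ι → ℤ) → ℂ) y) =
      (fun x : ι → ℤ => @ite ℂ (x = 0) (Classical.propDecidable _) (1 : ℂ) 0) := by
    funext y
    rw [lp.coeFn_single]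
    by_cases hy : y = 0
    · subst hy
      simp
    · simp [hy]
  rw [h3]

end Pool.Agent.W239.GKMop
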