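import Mathlib
import Pool.Agent.W982.TA.Grid

/-!
# Min-max area triangulations: gluing, no triangles
-/

set_option autoImplicit false

namespace Pool.Agent.W982.TA

namespace F5

/-- the side `u w` is a segment of the family -/
def Side (R C : ℕ) (ty : ℕ → ℕ → ℕ) (P : ℕ → List ℕ) (f : ℕ → ℕ → ℕ → ℕ → Pt) (u w : Pt) : Prop :=
  ∃ i j x y : ℕ, i < R ∧ j < C ∧ x < 64 ∧ y < 62 ∧
    missP (P (ty i j)) ((x : ℤ), (y : ℤ)) = true ∧
    ((u.1 = 64 * (j : ℤ) + x - (f i j x y).1 ∧ u.2 = 62 * (i : ℤ) + y - (f i j x y).2 ∧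
      w.1 = 64 * (j : ℤ) + x + (f i j x y).1 ∧ w.2 = 62 * (i : ℤ) + y + (f i j x y).2) ∨
    (w.1 = 64 * (j : ℤ) + x - (f i j x y).1 ∧ w.2 = 62 * (i : ℤ) + y - (f i j x y).2 ∧
      u.1 = 64 * (j : ℤ) + x + (f i j x y).1 ∧ u.2 = 62 * (i : ℤ) + y + (f i j x y).2))

variable {R C : ℕ} {ty st : ℕ → ℕ → ℕ} {P : ℕ → List ℕ} {f : ℕ → ℕ → ℕ → ℕ → Pt}
  {M : Finset Pt} {e : Pt → Pt}

theorem Side.symm {u w : Pt} (h : Side R C ty P f u w) : Side R C ty P f w u := by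
  obtain ⟨i, j, x, y, hi, hj, hx, hy, hm, h | h⟩ := h
  · exact ⟨i, j, x, y, hi, hj, hx, hy, hm, Or.inr h⟩
  · exact ⟨i, j, x, y, hi, hj, hx, hy, hm, Or.inl h⟩

theorem side_of (G : GridOK R C ty st P f M e) {q : Pt} (hq : q ∈ M) {u w : Pt}
    (h : s(q - e q, q + e q) = s(u, w)) : Side R C ty P f u w := by
  obtain ⟨i, hi, j, hj, x, hx, y, hy, hm, rfl⟩ := (G.mem q).1 hq
  rw [G.val i hi j hj x hx y hy, Sym2.eq_iff] at h
  refine ⟨i, j, x, y, hi, hj, hx, hy, hm, ?_⟩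
  rcases h with ⟨h1, h2⟩ | ⟨h1, h2⟩
  · left
    subst h1 h2
    exact ⟨rfl, rfl, rfl, rfl⟩
  · right
    subst h1 h2
    exact ⟨rfl, rfl, rfl, rfl⟩

/-- classification of the segments -/
def Cls (ty : ℕ → ℕ → ℕ) (i j x y : ℕ) (u w : Pt) : Prop :=
  u.1 + w.1 = 2 * (64 * (j : ℤ) + x) ∧ u.2 + w.2 = 2 * (62 * (i : ℤ) + y) ∧
  ((64 * (j : ℤ) ≤ u.1 ∧ u.1 ≤ 64 * (j : ℤ) + 63 ∧ 64 * (j : ℤ) ≤ w.1 ∧
      w.1 ≤ 64 * (j : ℤ) + 63 ∧ 62 * (i : ℤ) ≤ u.2 ∧ u.2 ≤ 62 * (i : ℤ) + 61 ∧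
      62 * (i : ℤ) ≤ w.2 ∧ w.2 ≤ 62 * (i : ℤ) + 61) ∨
    (((x = 0 ∧ hrL (ty i j) y = true) ∨ (x = 63 ∧ hrR (ty i j) y = true)) ∧
      19 ≤ y ∧ y ≤ 42 ∧ (u.1 - w.1 = 2 ∨ u.1 - w.1 = -2) ∧ (u.2 - w.2 = 4 ∨ u.2 - w.2 = -4)) ∨
    ((y = 0 ∨ y = 61) ∧ (x = 4 ∨ x = 5 ∨ x = 15 ∨ x = 16 ∨ x = 25 ∨ x = 26) ∧
      (u.1 - w.1 = 4 ∨ u.1 - w.1 = -4) ∧ (u.2 - w.2 = 2 ∨ u.2 - w.2 = -2)))

theorem hrL_rng {t y : ℕ} (h : hrL t y = true) : 19 ≤ y ∧ y ≤ 42 := by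
  unfold hrL at h
  split_ifs at h <;> simp only [decide_eq_true_eq] at h <;> omega

theorem hrR_rng {t y : ℕ} (h : hrR t y = true) : 19 ≤ y ∧ y ≤ 42 := by
  unfold hrR at h
  split_ifs at h <;> simp only [decide_eq_true_eq] at h <;> omega

theorem vcB_rng {t x : ℕ} (h : vcB t x = true) :
    x = 4 ∨ x = 5 ∨ x = 15 ∨ x = 16 ∨ x = 25 ∨ x = 26 := by
  unfold vcB at h
  split_ifs at h <;> simp only [decide_eq_true_eq] at h <;> omega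

theorem vcT_rng {t x : ℕ} (h : vcT t x = true) :
    x = 4 ∨ x = 5 ∨ x = 15 ∨ x = 16 ∨ x = 25 ∨ x = 26 := by
  unfold vcT at h
  split_ifs at h <;> simp only [decide_eq_true_eq] at h <;> omega

theorem hrL_four {t y y' : ℕ} (h : hrL t y = true) (h' : hrL t y' = true) : y ≠ y' + 4 := by
  unfold hrL at h h'
  split_ifs at h h' <;> simp only [decide_eq_true_eq] at h h' <;> omega

theorem hrR_four {t y y' : ℕ} (h : hrR t y = true) (h' : hrR t y' = true) : y ≠ y' + 4 := by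
  unfold hrR at h h'
  split_ifs at h h' <;> simp only [decide_eq_true_eq] at h h' <;> omega

theorem cls_of (G : GridOK R C ty st P f M e) {u w : Pt} (h : Side R C ty P f u w) :
    ∃ i j x y : ℕ, x < 64 ∧ y < 62 ∧ Cls ty i j x y u w := by
  obtain ⟨i, j, x, y, hi, hj, hx, hy, hm, h⟩ := h
  refine ⟨i, j, x, y, hx, hy, by omega, by omega, ?_⟩
  rcases (G.loc i hi j hj).edge x y hm with hb | hb | hb
  · left
    obtain ⟨b1, b2, b3, b4⟩ := hb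
    have a1 := le_abs_self (f i j x y).1
    have a2 := neg_abs_le (f i j x y).1
    have a3 := le_abs_self (f i j x y).2
    have a4 := neg_abs_le (f i j x y).2
    generalize |(f i j x y).1| = v1 at *
    generalize |(f i j x y).2| = v2 at *
    omega
  · right
    left
    obtain ⟨b1, b2⟩ := hb
    have b3 : (f i j x y).1 = 1 ∨ (f i j x y).1 = -1 := by
      rw [b2]
      dsimp only
      split_ifs <;> simp
    have b4 : (f i j x y).2 = 2 := by rw [b2]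
    have b5 : 19 ≤ y ∧ y ≤ 42 := by
      rcases b1 with ⟨_, b1⟩ | ⟨_, b1⟩
      · exact hrL_rng b1
      · exact hrR_rng b1
    exact ⟨b1, b5.1, b5.2, by omega, by omega⟩
  · right
    right
    have b1 : (y = 0 ∨ y = 61) ∧ (x = 4 ∨ x = 5 ∨ x = 15 ∨ x = 16 ∨ x = 25 ∨ x = 26) := by
      rcases hb with ⟨b1, b2, _⟩ | ⟨b1, b2, _⟩
      · exact ⟨Or.inr b1, vcT_rng b2⟩
      · exact ⟨Or.inl b1, vcB_rng b2⟩
    have b2 : ((f i j x y).1 = 2 ∨ (f i j x y).1 = -2) ∧ (f i j x y).2 = 1 := by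
      rcases hb with ⟨_, _, b2⟩ | ⟨_, _, b2⟩
      · rw [b2]
        dsimp only
        split_ifs <;> simp
      · rw [b2]
        dsimp only
        split_ifs <;> simp
    exact ⟨b1.1, b1.2, by omega, by omega⟩

theorem fl {a j : ℤ} (h1 : 64 * j ≤ a) (h2 : a ≤ 64 * j + 63) : a / 64 = j := by omega

theorem fl' {a j : ℤ} (h1 : 62 * j ≤ a) (h2 : a ≤ 62 * j + 61) : a / 62 = j := by omega

theorem st1 {a b : ℤ} (h : a - b ≤ 4) (h' : b - a ≤ 4) : a / 64 - b / 64 ≤ 1 ∧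
    b / 64 - a / 64 ≤ 1 := by omega

theorem st2 {a b : ℤ} (h : a - b ≤ 4) (h' : b - a ≤ 4) : a / 62 - b / 62 ≤ 1 ∧
    b / 62 - a / 62 ≤ 1 := by omega

theorem hstep {i j x y : ℕ} {u w : Pt} (h : Cls ty i j x y u w) :
    u.1 / 64 - w.1 / 64 ≤ 1 ∧ w.1 / 64 - u.1 / 64 ≤ 1 := by
  obtain ⟨-, -, h3 | h3 | h3⟩ := h
  · rw [fl h3.1 h3.2.1, fl h3.2.2.1 h3.2.2.2.1]
    simp
  · exact st1 (by omega) (by omega)
  · exact st1 (by omega) (by omega)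

theorem vstep {i j x y : ℕ} {u w : Pt} (h : Cls ty i j x y u w) :
    u.2 / 62 - w.2 / 62 ≤ 1 ∧ w.2 / 62 - u.2 / 62 ≤ 1 := by
  obtain ⟨-, -, h3 | h3 | h3⟩ := h
  · rw [fl' h3.2.2.2.2.1 h3.2.2.2.2.2.1, fl' h3.2.2.2.2.2.2.1 h3.2.2.2.2.2.2.2]
    simp
  · exact st2 (by omega) (by omega)
  · exact st2 (by omega) (by omega)

theorem hcls {i j x y : ℕ} {p u : Pt} (h : Cls ty i j x y p u) (h1 : p.1 / 64 ≠ u.1 / 64) :
    p.1 + u.1 = 2 * (64 * (j : ℤ) + x) ∧ p.2 + u.2 = 2 * (62 * (i : ℤ) + y) ∧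
    ((x = 0 ∧ hrL (ty i j) y = true) ∨ (x = 63 ∧ hrR (ty i j) y = true)) ∧
      19 ≤ y ∧ y ≤ 42 ∧ (p.1 - u.1 = 2 ∨ p.1 - u.1 = -2) ∧
        (p.2 - u.2 = 4 ∨ p.2 - u.2 = -4) := by
  obtain ⟨c1, c2, c3 | c3 | c3⟩ := h
  · exact absurd ((fl c3.1 c3.2.1).trans (fl c3.2.2.1 c3.2.2.2.1).symm) h1
  · exact ⟨c1, c2, c3⟩
  · obtain ⟨_, d1, d2, _⟩ := c3
    exact absurd ((fl (j := (j : ℤ)) (by omega) (by omega)).trans
      (fl (by omega) (by omega)).symm) h1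

theorem vcls {i j x y : ℕ} {p u : Pt} (h : Cls ty i j x y p u) (h1 : p.2 / 62 ≠ u.2 / 62) :
    p.1 + u.1 = 2 * (64 * (j : ℤ) + x) ∧ p.2 + u.2 = 2 * (62 * (i : ℤ) + y) ∧
    (y = 0 ∨ y = 61) ∧ (x = 4 ∨ x = 5 ∨ x = 15 ∨ x = 16 ∨ x = 25 ∨ x = 26) ∧
      (p.1 - u.1 = 4 ∨ p.1 - u.1 = -4) ∧ (p.2 - u.2 = 2 ∨ p.2 - u.2 = -2) := by
  obtain ⟨c1, c2, c3 | c3 | c3⟩ := h
  · exact absurd ((fl' c3.2.2.2.2.1 c3.2.2.2.2.2.1).trans
      (fl' c3.2.2.2.2.2.2.1 c3.2.2.2.2.2.2.2).symm) h1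
  · obtain ⟨_, d1, d2, _, d3⟩ := c3
    exact absurd ((fl' (j := (i : ℤ)) (by omega) (by omega)).trans
      (fl' (by omega) (by omega)).symm) h1
  · exact ⟨c1, c2, c3⟩

theorem eq_of {p u w : ℤ} (k : p - u = 2 ∨ p - u = -2) (k' : p - w = 2 ∨ p - w = -2)
    (h1 : p / 64 ≠ u / 64) (h2 : u / 64 = w / 64) : u = w := by omega

theorem eq_of' {p u w : ℤ} (k : p - u = 2 ∨ p - u = -2) (k' : p - w = 2 ∨ p - w = -2)
    (h1 : p / 62 ≠ u / 62) (h2 : u / 62 = w / 62) : u = w := by omega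

theorem tile1 {p u : ℤ} {j j' x x' : ℕ} (c : p + u = 2 * (64 * (j : ℤ) + x))
    (c' : p + u = 2 * (64 * (j' : ℤ) + x')) (hx : x < 64) (hx' : x' < 64) : j = j' ∧ x = x' := by
  omega

theorem tile2 {p u w : ℤ} {i i' y y' : ℕ} (c : p + u = 2 * (62 * (i : ℤ) + y))
    (c' : p + w = 2 * (62 * (i' : ℤ) + y')) (h1 : 19 ≤ y) (h2 : y ≤ 42) (h1' : 19 ≤ y')
    (h2' : y' ≤ 42) (k : p - u = 4 ∨ p - u = -4) (k' : p - w = 4 ∨ p - w = -4) (hne : u ≠ w) :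
    i = i' ∧ (y = y' + 4 ∨ y' = y + 4) := by
  have h : u - w = 8 ∨ u - w = -8 := by omega
  omega

theorem tile3 {p u w : ℤ} {j j' x x' : ℕ} (c : p + u = 2 * (64 * (j : ℤ) + x))
    (c' : p + w = 2 * (64 * (j' : ℤ) + x'))
    (h1 : x = 4 ∨ x = 5 ∨ x = 15 ∨ x = 16 ∨ x = 25 ∨ x = 26)
    (h1' : x' = 4 ∨ x' = 5 ∨ x' = 15 ∨ x' = 16 ∨ x' = 25 ∨ x' = 26)
    (k : p - u = 4 ∨ p - u = -4) (k' : p - w = 4 ∨ p - w = -4) : u = w := by
  by_contra hne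
  have h : u - w = 8 ∨ u - w = -8 := by omega
  have h2 : 64 * (j : ℤ) + x - (64 * (j' : ℤ) + x') = 4 ∨
      64 * (j : ℤ) + x - (64 * (j' : ℤ) + x') = -4 := by omega
  have h3 : 4 ≤ x ∧ x ≤ 26 := by omega
  have h4 : 4 ≤ x' ∧ x' ≤ 26 := by omega
  have h5 : j = j' := by
    clear c c' h1 h1' k k' hne h
    omega
  clear c c' k k' hne h
  omega

theorem hcut (G : GridOK R C ty st P f M e) {p u w : Pt} (h : Side R C ty P f p u)
    (h' : Side R C ty P f p w) (h1 : p.1 / 64 ≠ u.1 / 64) (h2 : u.1 / 64 = w.1 / 64) : u = w := by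
  obtain ⟨i, j, x, y, hx, hy, c⟩ := cls_of G h
  obtain ⟨i', j', x', y', hx', hy', c'⟩ := cls_of G h'
  obtain ⟨c1, c2, k1, k2, k3, k4, k5⟩ := hcls c h1
  obtain ⟨c1', c2', k1', k2', k3', k4', k5'⟩ := hcls c' (h2 ▸ h1)
  have e1 : u.1 = w.1 := eq_of k4 k4' h1 h2
  by_cases e4 : u.2 = w.2
  · exact Prod.ext e1 e4
  exfalso
  rw [← e1] at c1'
  obtain ⟨e2, e3⟩ := tile1 c1 c1' hx hx'
  obtain ⟨e5, e6⟩ := tile2 c2 c2' k2 k3 k2' k3' k5 k5' e4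
  subst e2 e3 e5
  rcases k1 with ⟨l1, l2⟩ | ⟨l1, l2⟩ <;> rcases k1' with ⟨l1', l2'⟩ | ⟨l1', l2'⟩
  · rcases e6 with e6 | e6
    · exact hrL_four l2 l2' e6
    · exact hrL_four l2' l2 e6
  · rw [l1] at l1'
    exact absurd l1' (by norm_num)
  · rw [l1] at l1'
    exact absurd l1' (by norm_num)
  · rcases e6 with e6 | e6
    · exact hrR_four l2 l2' e6
    · exact hrR_four l2' l2 e6

theorem vcut (G : GridOK R C ty st P f M e) {p u w : Pt} (h : Side R C ty P f p u)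
    (h' : Side R C ty P f p w) (h1 : p.2 / 62 ≠ u.2 / 62) (h2 : u.2 / 62 = w.2 / 62) : u = w := by
  obtain ⟨i, j, x, y, hx, hy, c⟩ := cls_of G h
  obtain ⟨i', j', x', y', hx', hy', c'⟩ := cls_of G h'
  obtain ⟨c1, c2, k1, k2, k3, k4⟩ := vcls c h1
  obtain ⟨c1', c2', k1', k2', k3', k4'⟩ := vcls c' (h2 ▸ h1)
  exact Prod.ext (tile3 c1 c1' k2 k2' k3 k3') (eq_of' k4 k4' h1 h2)

/-- translation to the tile -/
theorem trans (G : GridOK R C ty st P f M e) {i₀ j₀ : ℤ} {q : Pt} (hq : q ∈ M) {u w : Pt}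
    (h : s(q - e q, q + e q) = s(u, w)) (hu : u.1 / 64 = j₀) (hw : w.1 / 64 = j₀)
    (hu' : u.2 / 62 = i₀) (hw' : w.2 / 62 = i₀) :
    ∃ i < R, ∃ j < C, (i : ℤ) = i₀ ∧ (j : ℤ) = j₀ ∧ ∃ x y : ℕ,
      missP (P (ty i j)) ((x : ℤ), (y : ℤ)) = true ∧
      s(en1 (f i j) x y, en2 (f i j) x y) =
        s((u.1 - 64 * j₀, u.2 - 62 * i₀), (w.1 - 64 * j₀, w.2 - 62 * i₀)) := by
  obtain ⟨i, hi, j, hj, x, hx, y, hy, hm, rfl⟩ := (G.mem q).1 hq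
  rw [G.val i hi j hj x hx y hy, Sym2.eq_iff] at h
  have h0 : (u.1 = 64 * (j : ℤ) + x - (f i j x y).1 ∧ u.2 = 62 * (i : ℤ) + y - (f i j x y).2 ∧
      w.1 = 64 * (j : ℤ) + x + (f i j x y).1 ∧ w.2 = 62 * (i : ℤ) + y + (f i j x y).2) ∨
    (w.1 = 64 * (j : ℤ) + x - (f i j x y).1 ∧ w.2 = 62 * (i : ℤ) + y - (f i j x y).2 ∧
      u.1 = 64 * (j : ℤ) + x + (f i j x y).1 ∧ u.2 = 62 * (i : ℤ) + y + (f i j x y).2) := by
    rcases h with ⟨h1, h2⟩ | ⟨h1, h2⟩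
    · left
      subst h1 h2
      exact ⟨rfl, rfl, rfl, rfl⟩
    · right
      subst h1 h2
      exact ⟨rfl, rfl, rfl, rfl⟩
  have ei : (i : ℤ) = i₀ := by omega
  have ej : (j : ℤ) = j₀ := by omega
  refine ⟨i, hi, j, hj, ei, ej, x, y, hm, ?_⟩
  rw [Sym2.eq_iff]
  rcases h0 with ⟨h1, h2, h3, h4⟩ | ⟨h1, h2, h3, h4⟩
  · left
    constructor
    · refine Prod.ext ?_ ?_
      · change (x : ℤ) - (f i j x y).1 = u.1 - 64 * j₀
        omega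
      · change (y : ℤ) - (f i j x y).2 = u.2 - 62 * i₀
        omega
    · refine Prod.ext ?_ ?_
      · change (x : ℤ) + (f i j x y).1 = w.1 - 64 * j₀
        omega
      · change (y : ℤ) + (f i j x y).2 = w.2 - 62 * i₀
        omega
  · right
    constructor
    · refine Prod.ext ?_ ?_
      · change (x : ℤ) - (f i j x y).1 = w.1 - 64 * j₀
        omega
      · change (y : ℤ) - (f i j x y).2 = w.2 - 62 * i₀
        omega
    · refine Prod.ext ?_ ?_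
      · change (x : ℤ) + (f i j x y).1 = u.1 - 64 * j₀
        omega
      · change (y : ℤ) + (f i j x y).2 = u.2 - 62 * i₀
        omega

end F5

open F5 in
theorem f5 : TaskF5 := by
  intro R C ty st P f M e G q₁ h1 q₂ h2 q₃ h3 a b c s1 s2 s3 hd
  have hab : a ≠ b := by
    rintro rfl
    simp [dt] at hd
  have hac : a ≠ c := by
    rintro rfl
    simp [dt] at hd
  have hbc : b ≠ c := by
    rintro rfl
    rw [show dt a b b = 0 by unfold dt; ring] at hd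
    simp at hd
  have A1 := side_of G h1 s1
  have A2 := side_of G h2 s2
  have A3 := side_of G h3 s3
  obtain ⟨i1, j1, x1, y1, hx1, hy1, C1⟩ := cls_of G A1
  obtain ⟨i2, j2, x2, y2, hx2, hy2, C2⟩ := cls_of G A2
  obtain ⟨i3, j3, x3, y3, hx3, hy3, C3⟩ := cls_of G A3
  have B1 := hstep C1
  have B2 := hstep C2
  have B3 := hstep C3
  have D1 := vstep C1
  have D2 := vstep C2
  have D3 := vstep C3
  have X : a.1 / 64 = b.1 / 64 ∧ a.1 / 64 = c.1 / 64 := by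
    by_contra hne
    by_cases k1 : b.1 / 64 = c.1 / 64
    · exact hbc (hcut G A3 A2 (by omega) k1)
    · by_cases k2 : a.1 / 64 = c.1 / 64
      · exact hac (hcut G A3.symm A1 (by omega) k2)
      · by_cases k3 : a.1 / 64 = b.1 / 64
        · exact hab (hcut G A2.symm A1.symm (by omega) k3)
        · omega
  have Y : a.2 / 62 = b.2 / 62 ∧ a.2 / 62 = c.2 / 62 := by
    by_contra hne
    by_cases k1 : b.2 / 62 = c.2 / 62
    · exact hbc (vcut G A3 A2 (by omega) k1)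
    · by_cases k2 : a.2 / 62 = c.2 / 62
      · exact hac (vcut G A3.symm A1 (by omega) k2)
      · by_cases k3 : a.2 / 62 = b.2 / 62
        · exact hab (vcut G A2.symm A1.symm (by omega) k3)
        · omega
  obtain ⟨i, hi, j, hj, ei, ej, x, y, hm, hs⟩ := trans G h1 s1 (i₀ := a.2 / 62) (j₀ := a.1 / 64)
    X.1.symm X.2.symm Y.1.symm Y.2.symm
  obtain ⟨i', hi', j', hj', ei', ej', x', y', hm', hs'⟩ := trans G h2 s2 (i₀ := a.2 / 62)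
    (j₀ := a.1 / 64) rfl X.2.symm rfl Y.2.symm
  obtain ⟨i'', hi'', j'', hj'', ei'', ej'', x'', y'', hm'', hs''⟩ := trans G h3 s3
    (i₀ := a.2 / 62) (j₀ := a.1 / 64) rfl X.1.symm rfl Y.1.symm
  have e1 : i' = i := by omega
  have e2 : j' = j := by omega
  have e3 : i'' = i := by omega
  have e4 : j'' = j := by omega
  subst e1 e2 e3 e4
  refine (G.loc _ hi _ hj).notri x y x' y' x'' y'' hm hm' hm'' _ _ _ hs hs' hs'' ?_
  rw [← hd]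
  congr 1
  unfold dt
  ring

end Pool.Agent.W982.TA
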