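import Pool.Agent.W979.TE.Defs4
import Pool.Agent.W247.BC.REG

/-!
Project TE4: the Erdos-Simonovits reduction with shared roots.
-/

set_option autoImplicit false

open Classical

namespace Pool.Agent.W239.TE4S

open Pool.Agent.W979.TE Pool.Agent.W979.TE4

/-! ### counting four-cycles -/

/-- indicator of adjacency -/
noncomputable def A {n : ℕ} (G : SimpleGraph (Fin n)) (x y : Fin n) : ℕ := if G.Adj x y then 1 else 0

theorem card_adj {n : ℕ} (G : SimpleGraph (Fin n)) (W : Finset (Fin n)) (x : Fin n) :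
    (W.filter (fun w => G.Adj x w)).card = ∑ y ∈ W, A G x y := by
  rw [Finset.card_filter]
  rfl

theorem card_adj' {n : ℕ} (G : SimpleGraph (Fin n)) (U : Finset (Fin n)) (y : Fin n) :
    (U.filter (fun u => G.Adj u y)).card = ∑ x ∈ U, A G x y := by
  rw [Finset.card_filter]
  rfl

/-- number of edges between the neighbourhoods -/
noncomputable def ee {n : ℕ} (G : SimpleGraph (Fin n)) (U W : Finset (Fin n)) (x y : Fin n) : ℕ :=
  (((U.filter (fun a => G.Adj a y)) ×ˢ (W.filter (fun b => G.Adj x b))).filter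
    (fun p => G.Adj p.1 p.2)).card

theorem ee_eq {n : ℕ} (G : SimpleGraph (Fin n)) (U W : Finset (Fin n)) (x y : Fin n) :
    ee G U W x y = ∑ a ∈ U, ∑ b ∈ W, A G a y * A G x b * A G a b := by
  unfold ee
  rw [Finset.card_filter, Finset.sum_product, Finset.sum_filter]
  refine Finset.sum_congr rfl fun a _ => ?_
  by_cases h : G.Adj a y
  · rw [if_pos h, Finset.sum_filter]
    refine Finset.sum_congr rfl fun b _ => ?_
    unfold A
    rw [if_pos h]
    by_cases h2 : G.Adj x b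
    · rw [if_pos h2, if_pos h2]
      simp
    · rw [if_neg h2, if_neg h2]
      simp
  · rw [if_neg h]
    symm
    refine Finset.sum_eq_zero fun b _ => ?_
    unfold A
    rw [if_neg h]
    simp

theorem exists_pair {n : ℕ} (G : SimpleGraph (Fin n)) (U W : Finset (Fin n)) (D K : ℕ)
    (hU : U.Nonempty) (hD : 0 < D) (hK : 0 < K)
    (hdU : ∀ u ∈ U, D ≤ (W.filter (fun w => G.Adj u w)).card ∧
      (W.filter (fun w => G.Adj u w)).card ≤ K * D)
    (hdW : ∀ w ∈ W, D ≤ (U.filter (fun u => G.Adj u w)).card ∧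
      (U.filter (fun u => G.Adj u w)).card ≤ K * D) :
    ∃ x ∈ U, ∃ y ∈ W, G.Adj x y ∧ D ^ 3 ≤ K ^ 3 * U.card * ee G U W x y := by
  by_contra hcon
  push Not at hcon
  simp only [card_adj] at hdU
  simp only [card_adj'] at hdW
  have hUc : 0 < U.card := hU.card_pos
  -- the number of edges
  obtain ⟨E, hE⟩ : ∃ E : ℕ, E = ∑ x ∈ U, ∑ y ∈ W, A G x y := ⟨_, rfl⟩
  have hE1 : U.card * D ≤ E := by
    rw [hE, ← smul_eq_mul]
    exact Finset.card_nsmul_le_sum _ _ _ fun x hx => (hdU x hx).1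
  have hE2 : E ≤ U.card * (K * D) := by
    rw [hE, ← smul_eq_mul]
    exact Finset.sum_le_card_nsmul _ _ _ fun x hx => (hdU x hx).2
  have hE3 : E ≤ W.card * (K * D) := by
    rw [hE, Finset.sum_comm, ← smul_eq_mul]
    exact Finset.sum_le_card_nsmul _ _ _ fun x hx => (hdW x hx).2
  have hUW : U.card ≤ K * W.card := by
    have h1 : U.card * D ≤ (K * W.card) * D := by
      calc U.card * D ≤ W.card * (K * D) := le_trans hE1 hE3
        _ = (K * W.card) * D := by ring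
    exact Nat.le_of_mul_le_mul_right h1 hD
  -- codegrees
  obtain ⟨N, hN⟩ : ∃ N : ℕ, N = ∑ p ∈ U ×ˢ U, (∑ y ∈ W, A G p.1 y * A G p.2 y) ^ 2 := ⟨_, rfl⟩
  have hCS : (∑ p ∈ U ×ˢ U, ∑ y ∈ W, A G p.1 y * A G p.2 y) ^ 2 ≤ (U.card * U.card) * N := by
    have h1 := sq_sum_le_card_mul_sum_sq (s := U ×ˢ U)
      (f := fun p => ∑ y ∈ W, A G p.1 y * A G p.2 y)
    rw [Finset.card_product] at h1
    rw [hN]
    exact h1
  have hcod : W.card * D ^ 2 ≤ ∑ p ∈ U ×ˢ U, ∑ y ∈ W, A G p.1 y * A G p.2 y := by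
    rw [Finset.sum_comm, ← smul_eq_mul]
    refine Finset.card_nsmul_le_sum _ _ _ fun y hy => ?_
    rw [Finset.sum_product]
    have h1 : ∑ x ∈ U, ∑ a ∈ U, A G x y * A G a y = (∑ x ∈ U, A G x y) ^ 2 := by
      rw [sq, Finset.sum_mul_sum]
    simp only
    rw [h1]
    exact Nat.pow_le_pow_left (hdW y hy).1 2
  -- the same number counted over the edges
  have hN2 : N = ∑ x ∈ U, ∑ y ∈ W, A G x y * ee G U W x y := by
    rw [hN, Finset.sum_product]
    refine Finset.sum_congr rfl fun x _ => ?_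
    have h1 : ∀ a, (∑ y ∈ W, A G x y * A G a y) ^ 2 =
        ∑ y ∈ W, ∑ b ∈ W, (A G x y * A G a y) * (A G x b * A G a b) := by
      intro a
      rw [sq, Finset.sum_mul_sum]
    simp only [h1]
    rw [Finset.sum_comm]
    refine Finset.sum_congr rfl fun y _ => ?_
    rw [ee_eq, Finset.mul_sum]
    refine Finset.sum_congr rfl fun a _ => ?_
    rw [Finset.mul_sum]
    refine Finset.sum_congr rfl fun b _ => ?_
    ring
  have hlt : K ^ 3 * U.card * N < D ^ 3 * E := by
    rw [hN2, hE, Finset.mul_sum, Finset.mul_sum]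
    have hle : ∀ x ∈ U, ∀ y ∈ W, K ^ 3 * U.card * (A G x y * ee G U W x y) ≤
        D ^ 3 * A G x y := by
      intro x hx y hy
      by_cases hxy : G.Adj x y
      · have := hcon x hx y hy hxy
        unfold A
        rw [if_pos hxy, one_mul, mul_one]
        exact this.le
      · unfold A
        rw [if_neg hxy]
        simp
    refine Finset.sum_lt_sum (fun x hx => ?_) ?_
    · rw [Finset.mul_sum, Finset.mul_sum]
      exact Finset.sum_le_sum fun y hy => hle x hx y hy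
    · obtain ⟨x, hx⟩ := hU
      refine ⟨x, hx, ?_⟩
      rw [Finset.mul_sum, Finset.mul_sum]
      refine Finset.sum_lt_sum (fun y hy => hle x hx y hy) ?_
      have h1 : 0 < ∑ y ∈ W, A G x y := lt_of_lt_of_le hD (hdU x hx).1
      obtain ⟨y, hy, hne⟩ := Finset.exists_ne_zero_of_sum_ne_zero h1.ne'
      refine ⟨y, hy, ?_⟩
      have hxy : G.Adj x y := by
        by_contra h
        apply hne
        unfold A
        rw [if_neg h]
      have := hcon x hx y hy hxy
      unfold A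
      rw [if_pos hxy, one_mul, mul_one]
      exact this
  -- contradiction
  have h1 : (W.card * D ^ 2) ^ 2 ≤ (U.card * U.card) * N :=
    le_trans (Nat.pow_le_pow_left hcod 2) hCS
  have h2 : K ^ 3 * U.card * (W.card * D ^ 2) ^ 2 ≤ (U.card * U.card) * (K ^ 3 * U.card * N) := by
    calc K ^ 3 * U.card * (W.card * D ^ 2) ^ 2 ≤ K ^ 3 * U.card * ((U.card * U.card) * N) :=
          Nat.mul_le_mul_left _ h1
      _ = _ := by ring
  have h3 : (U.card * U.card) * (K ^ 3 * U.card * N) < (U.card * U.card) * (D ^ 3 * E) :=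
    Nat.mul_lt_mul_of_pos_left hlt (by positivity)
  have h4 : (U.card * U.card) * (D ^ 3 * E) ≤ (U.card * U.card) * (D ^ 3 * (U.card * (K * D))) :=
    Nat.mul_le_mul_left _ (Nat.mul_le_mul_left _ hE2)
  have h5 : K ^ 3 * U.card * (W.card * D ^ 2) ^ 2 =
      (K * D ^ 4 * U.card) * (K * W.card) ^ 2 := by ring
  have h6 : (U.card * U.card) * (D ^ 3 * (U.card * (K * D))) =
      (K * D ^ 4 * U.card) * U.card ^ 2 := by ring
  have h7 : (K * D ^ 4 * U.card) * (K * W.card) ^ 2 < (K * D ^ 4 * U.card) * U.card ^ 2 := by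
    rw [← h5, ← h6]
    exact lt_of_le_of_lt h2 (lt_of_lt_of_le h3 h4)
  have h8 : (K * W.card) ^ 2 < U.card ^ 2 := Nat.lt_of_mul_lt_mul_left h7
  have h9 : U.card ^ 2 ≤ (K * W.card) ^ 2 := Nat.pow_le_pow_left hUW 2
  omega


theorem numer (ρ M C : ℝ) (K D u N e e' k : ℕ) (hρ : 1 < ρ) (hK : 0 < K) (hM : 0 ≤ M)
    (hC : C = (K : ℝ) ^ 3 * (2 * K + M * (2 * K) ^ 2) + 1) (hu : 1 ≤ u) (huN : u ≤ N)
    (h1 : C * (N : ℝ) ^ (1 - 1 / (ρ + 1)) ≤ (D : ℝ)) (h2 : D ^ 3 ≤ K ^ 3 * u * e)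
    (h3 : e ≤ e' + 2 * K * D) (h4 : (e' : ℝ) ≤ M * (k : ℝ) ^ (2 - 1 / ρ))
    (h5 : k ≤ 2 * K * D) : False := by
  have hρ0 : 0 < ρ := by linarith
  have hKR : (0 : ℝ) < K := by exact_mod_cast hK
  have huR : (1 : ℝ) ≤ u := by exact_mod_cast hu
  have hC1 : 1 ≤ C := by
    rw [hC]
    have : (0 : ℝ) ≤ (K : ℝ) ^ 3 * (2 * K + M * (2 * K) ^ 2) := by positivity
    linarith
  have hε0 : 0 < 1 - 1 / (ρ + 1) := by
    rw [sub_pos, div_lt_one (by linarith)]
    linarith
  have hinv : (1 - 1 / (ρ + 1)) * (1 + 1 / ρ) = 1 := by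
    have h6 : ρ + 1 ≠ 0 := by linarith
    field_simp
    ring
  -- u ^ ε ≤ D
  have h6 : (u : ℝ) ^ (1 - 1 / (ρ + 1)) ≤ (N : ℝ) ^ (1 - 1 / (ρ + 1)) :=
    Real.rpow_le_rpow (by positivity) (by exact_mod_cast huN) hε0.le
  have h7 : C * (u : ℝ) ^ (1 - 1 / (ρ + 1)) ≤ (D : ℝ) :=
    le_trans (mul_le_mul_of_nonneg_left h6 (by linarith)) h1
  have h8 : (1 : ℝ) ≤ (u : ℝ) ^ (1 - 1 / (ρ + 1)) := Real.one_le_rpow huR hε0.le
  have hDC : C ≤ D := by nlinarith
  have hD1 : (1 : ℝ) ≤ D := by linarith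
  have hD0 : (0 : ℝ) < D := by linarith
  have h9 : (u : ℝ) * C ≤ (D : ℝ) ^ (1 + 1 / ρ) := by
    have h10 : (C * (u : ℝ) ^ (1 - 1 / (ρ + 1))) ^ (1 + 1 / ρ) ≤ (D : ℝ) ^ (1 + 1 / ρ) :=
      Real.rpow_le_rpow (by positivity) h7 (by positivity)
    rw [Real.mul_rpow (by linarith) (by positivity), ← Real.rpow_mul (by positivity), hinv,
      Real.rpow_one] at h10
    have h11 : C ≤ C ^ (1 + 1 / ρ) := by
      have : C ^ (1 : ℝ) ≤ C ^ (1 + 1 / ρ) := by
        apply Real.rpow_le_rpow_of_exponent_le hC1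
        have : 0 < 1 / ρ := by positivity
        linarith
      rwa [Real.rpow_one] at this
    calc (u : ℝ) * C ≤ u * C ^ (1 + 1 / ρ) := mul_le_mul_of_nonneg_left h11 (by linarith)
      _ = C ^ (1 + 1 / ρ) * u := by ring
      _ ≤ _ := h10
  -- D ^ 3 = D ^ (2 - 1/ρ) * D ^ (1 + 1/ρ)
  have h12 : (D : ℝ) ^ 3 = (D : ℝ) ^ (2 - 1 / ρ) * (D : ℝ) ^ (1 + 1 / ρ) := by
    rw [← Real.rpow_add hD0, ← Real.rpow_natCast]
    congr 1
    push_cast
    ring
  obtain ⟨Y, hY⟩ : ∃ Y : ℝ, Y = (D : ℝ) ^ (2 - 1 / ρ) := ⟨_, rfl⟩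
  have hY0 : 0 < Y := by rw [hY]; positivity
  have h2' : (D : ℝ) ^ 3 ≤ (K : ℝ) ^ 3 * u * e := by exact_mod_cast h2
  have h13 : Y * C ≤ (K : ℝ) ^ 3 * e := by
    have h14 : (u : ℝ) * (Y * C) ≤ u * ((K : ℝ) ^ 3 * e) := by
      calc (u : ℝ) * (Y * C) = Y * (u * C) := by ring
        _ ≤ Y * (D : ℝ) ^ (1 + 1 / ρ) := mul_le_mul_of_nonneg_left h9 hY0.le
        _ = (D : ℝ) ^ 3 := by rw [h12, hY]
        _ ≤ (K : ℝ) ^ 3 * u * e := h2'
        _ = u * ((K : ℝ) ^ 3 * e) := by ring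
    exact le_of_mul_le_mul_left h14 (by linarith)
  have hexp1 : (1 : ℝ) ≤ 2 - 1 / ρ := by
    have : 1 / ρ ≤ 1 := by
      rw [div_le_one hρ0]; linarith
    linarith
  have hDY : (D : ℝ) ≤ Y := by
    have : (D : ℝ) ^ (1 : ℝ) ≤ (D : ℝ) ^ (2 - 1 / ρ) :=
      Real.rpow_le_rpow_of_exponent_le hD1 hexp1
    rw [Real.rpow_one] at this
    rw [hY]
    exact this
  have h15 : (k : ℝ) ^ (2 - 1 / ρ) ≤ (2 * K) ^ 2 * Y := by
    have h5' : (k : ℝ) ≤ (2 * K) * D := by exact_mod_cast h5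
    have h16 : (k : ℝ) ^ (2 - 1 / ρ) ≤ ((2 * K) * D : ℝ) ^ (2 - 1 / ρ) :=
      Real.rpow_le_rpow (by positivity) h5' (by linarith)
    rw [Real.mul_rpow (by positivity) (by positivity), ← hY] at h16
    have h17 : (2 * K : ℝ) ^ (2 - 1 / ρ) ≤ (2 * K) ^ 2 := by
      have h18 : (1 : ℝ) ≤ 2 * K := by
        have : (1 : ℝ) ≤ K := by exact_mod_cast hK
        linarith
      have h19 : (2 * K : ℝ) ^ (2 - 1 / ρ) ≤ (2 * K : ℝ) ^ (2 : ℝ) := by
        apply Real.rpow_le_rpow_of_exponent_le h18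
        have : 0 < 1 / ρ := by positivity
        linarith
      have h20 : (2 * K : ℝ) ^ (2 : ℝ) = (2 * K : ℝ) ^ 2 := by
        rw [← Real.rpow_natCast]
        norm_num
      rw [h20] at h19
      exact h19
    exact le_trans h16 (mul_le_mul_of_nonneg_right h17 hY0.le)
  have h3' : (e : ℝ) ≤ e' + 2 * K * D := by exact_mod_cast h3
  have h21 : (e : ℝ) ≤ (2 * K + M * (2 * K) ^ 2) * Y := by
    have h22 : M * (k : ℝ) ^ (2 - 1 / ρ) ≤ M * ((2 * K) ^ 2 * Y) :=
      mul_le_mul_of_nonneg_left h15 hM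
    have h23 : 2 * (K : ℝ) * D ≤ 2 * K * Y := mul_le_mul_of_nonneg_left hDY (by positivity)
    calc (e : ℝ) ≤ e' + 2 * K * D := h3'
      _ ≤ M * ((2 * K) ^ 2 * Y) + 2 * K * Y := by linarith
      _ = _ := by ring
  have h24 : Y * C ≤ Y * ((K : ℝ) ^ 3 * (2 * K + M * (2 * K) ^ 2)) := by
    calc Y * C ≤ (K : ℝ) ^ 3 * e := h13
      _ ≤ (K : ℝ) ^ 3 * ((2 * K + M * (2 * K) ^ 2) * Y) :=
        mul_le_mul_of_nonneg_left h21 (by positivity)
      _ = _ := by ring
  have h25 := le_of_mul_le_mul_left h24 hY0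
  rw [hC] at h25
  linarith


theorem const_side {V : Type} {T : SimpleGraph V} {R : Set V} {t : ℕ} (col : V → Bool)
    (hconn : (BU T R t).Connected)
    (hcol : ∀ a b : BV V R t, (BU T R t).Adj a b → col a.1.1 ≠ col b.1.1)
    (side : BV V R t → Bool)
    (hside : ∀ a b : BV V R t, (BU T R t).Adj a b → side a ≠ side b) :
    ∃ c0 : Bool, ∀ a, side a = xor c0 (col a.1.1) := by
  obtain ⟨a0⟩ := hconn.nonempty
  refine ⟨xor (side a0) (col a0.1.1), fun a => ?_⟩
  have h1 : (BU T R t).Reachable a0 a := hconn.preconnected a0 a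
  rw [SimpleGraph.reachable_iff_reflTransGen] at h1
  have h2 : xor (side a) (col a.1.1) = xor (side a0) (col a0.1.1) := by
    induction h1 with
    | refl => rfl
    | tail h3 h4 ih =>
      rw [← ih]
      have h5 := hcol _ _ h4
      have h6 := hside _ _ h4
      revert h5 h6
      generalize side _ = s1
      generalize side _ = s2
      generalize col _ = c1
      generalize col _ = c2
      revert s1 s2 c1 c2
      decide
  rw [← h2]
  generalize side _ = s1
  generalize col _ = c1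
  revert s1 c1
  decide

theorem extend {V : Type} {T : SimpleGraph V} {R : Set V} {t : ℕ} (col : V → Bool)
    (hconn : (BU T R t).Connected)
    (hcol : ∀ a b : BV V R t, (BU T R t).Adj a b → col a.1.1 ≠ col b.1.1)
    {W : Type} (G : SimpleGraph W) (P Q : Finset W) (x y : W)
    (hxy : x ≠ y) (hxP : x ∉ P) (hxQ : x ∉ Q) (hyP : y ∉ P) (hyQ : y ∉ Q)
    (hx : ∀ b ∈ Q, G.Adj b x) (hy : ∀ a ∈ P, G.Adj a y)
    (f : BV V R t → W) (hf : Function.Injective f) (hfPQ : ∀ a, f a ∈ P ∨ f a ∈ Q)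
    (hadj : ∀ a b : BV V R t, (BU T R t).Adj a b → G.Adj (f a) (f b) ∧ (f a ∈ P ↔ f b ∉ P)) :
    HasBU (TS T R col) (RS R) t G := by
  obtain ⟨c0, hc0⟩ := const_side col hconn hcol (fun a => decide (f a ∈ P)) (by
    intro a b hab
    have h1 := (hadj a b hab).2
    by_cases ha : f a ∈ P
    · have hb := h1.mp ha
      simp [ha, hb]
    · have hb : f b ∈ P := by
        by_contra hcon
        exact ha (h1.mpr hcon)
      simp [ha, hb])
  have hR : ∀ v ∈ R, (Sum.inl v : V ⊕ Bool) ∈ RS R := fun v hv => Or.inl ⟨v, hv, rfl⟩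
  have hR' : ∀ v, (Sum.inl v : V ⊕ Bool) ∈ RS R → v ∈ R := by
    rintro v (⟨w, hw, h⟩ | ⟨b, h⟩)
    · cases h
      exact hw
    · cases h
  have hRb : ∀ b, (Sum.inr b : V ⊕ Bool) ∈ RS R := fun b => Or.inr ⟨b, rfl⟩
  obtain ⟨ap, hap⟩ : ∃ ap : Bool → W, ∀ b, ap b = if xor c0 b then x else y := ⟨_, fun _ => rfl⟩
  have hapxy : ∀ b, ap b = x ∨ ap b = y := by
    intro b
    rw [hap]
    split_ifs
    · exact Or.inl rfl
    · exact Or.inr rfl
  have hapf : ∀ b a, ap b ≠ f a := by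
    intro b a h
    rcases hapxy b with h1 | h1 <;> rcases hfPQ a with h2 | h2 <;> rw [← h, h1] at h2
    · exact hxP h2
    · exact hxQ h2
    · exact hyP h2
    · exact hyQ h2
  have hapinj : Function.Injective ap := by
    intro b b' h
    rw [hap, hap] at h
    revert h
    cases b <;> cases b' <;> cases c0 <;> simp [hxy, hxy.symm]
  -- the map
  obtain ⟨g, hg1, hg2⟩ : ∃ g : BV (V ⊕ Bool) (RS R) t → W,
      (∀ v j h, g ⟨(Sum.inl v, j), h⟩ = f ⟨(v, j), h.1, fun hv => h.2 (hR v hv)⟩) ∧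
      (∀ b j h, g ⟨(Sum.inr b, j), h⟩ = ap b) := by
    refine ⟨fun p => match p with
      | ⟨(Sum.inl v, j), h⟩ => f ⟨(v, j), h.1, fun hv => h.2 (hR v hv)⟩
      | ⟨(Sum.inr b, j), h⟩ => ap b, ?_, ?_⟩
    · intro v j h
      rfl
    · intro b j h
      rfl
  -- adjacency in one direction
  have key : ∀ a b : BV (V ⊕ Bool) (RS R) t,
      (TS T R col).Adj a.1.1 b.1.1 → (a.1.2 = b.1.2 ∨ a.1.1 ∈ RS R ∨ b.1.1 ∈ RS R) →
      G.Adj (g a) (g b) := by
    rintro ⟨⟨a | a, i⟩, ha⟩ ⟨⟨b | b, j⟩, hb⟩ h1 h2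
    · rw [hg1, hg1]
      refine (hadj _ _ ?_).1
      have h3 : T.Adj a b := by
        unfold TS at h1
        rw [SimpleGraph.fromRel_adj] at h1
        rcases h1.2 with (⟨u, v, hu, hv, huv⟩ | ⟨v, c, hv, hc, _⟩) |
          (⟨u, v, hu, hv, huv⟩ | ⟨v, c, hv, hc, _⟩)
        · cases hu; cases hv; exact huv
        · cases hc
        · cases hu; cases hv; exact huv.symm
        · cases hc
      unfold BU
      rw [SimpleGraph.fromRel_adj]
      refine ⟨?_, Or.inl ⟨h3, ?_⟩⟩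
      · intro h
        have h4 : a = b := congrArg (fun z => z.1.1) h
        rw [h4] at h3
        exact T.irrefl h3
      · rcases h2 with h2 | h2 | h2
        · exact Or.inl h2
        · exact Or.inr (Or.inl (hR' _ h2))
        · exact Or.inr (Or.inr (hR' _ h2))
    · rw [hg1, hg2]
      have h3 : col a ≠ b := by
        unfold TS at h1
        rw [SimpleGraph.fromRel_adj] at h1
        rcases h1.2 with (⟨u, v, hu, hv, huv⟩ | ⟨v, c, hv, hc, h4⟩) |
          (⟨u, v, hu, hv, huv⟩ | ⟨v, c, hv, hc, h4⟩)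
        · cases hv
        · cases hv; cases hc; exact h4.2
        · cases hu
        · cases hv
      have h5 := hc0 ⟨(a, i), ha.1, fun hv => ha.2 (hR a hv)⟩
      simp only at h5
      rw [hap]
      by_cases h6 : f ⟨(a, i), ha.1, fun hv => ha.2 (hR a hv)⟩ ∈ P
      · have h7 : (xor c0 b) = false := by
          rw [decide_eq_true h6] at h5
          revert h5 h3
          generalize col a = c1
          revert c1
          cases c0 <;> cases b <;> decide
        rw [h7]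
        exact hy _ h6
      · have h7 : (xor c0 b) = true := by
          rw [decide_eq_false h6] at h5
          revert h5 h3
          generalize col a = c1
          revert c1
          cases c0 <;> cases b <;> decide
        rw [h7]
        have h8 : f ⟨(a, i), ha.1, fun hv => ha.2 (hR a hv)⟩ ∈ Q :=
          (hfPQ _).resolve_left h6
        exact hx _ h8
    · rw [hg1, hg2]
      have h3 : col b ≠ a := by
        unfold TS at h1
        rw [SimpleGraph.fromRel_adj] at h1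
        rcases h1.2 with (⟨u, v, hu, hv, huv⟩ | ⟨v, c, hv, hc, h4⟩) |
          (⟨u, v, hu, hv, huv⟩ | ⟨v, c, hv, hc, h4⟩)
        · cases hu
        · cases hv
        · cases hv
        · cases hv; cases hc; exact h4.2
      have h5 := hc0 ⟨(b, j), hb.1, fun hv => hb.2 (hR b hv)⟩
      simp only at h5
      rw [hap]
      by_cases h6 : f ⟨(b, j), hb.1, fun hv => hb.2 (hR b hv)⟩ ∈ P
      · have h7 : (xor c0 a) = false := by
          rw [decide_eq_true h6] at h5
          revert h5 h3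
          generalize col b = c1
          revert c1
          cases c0 <;> cases a <;> decide
        rw [h7]
        exact (hy _ h6).symm
      · have h7 : (xor c0 a) = true := by
          rw [decide_eq_false h6] at h5
          revert h5 h3
          generalize col b = c1
          revert c1
          cases c0 <;> cases a <;> decide
        rw [h7]
        have h8 : f ⟨(b, j), hb.1, fun hv => hb.2 (hR b hv)⟩ ∈ Q :=
          (hfPQ _).resolve_left h6
        exact (hx _ h8).symm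
    · exfalso
      unfold TS at h1
      rw [SimpleGraph.fromRel_adj] at h1
      rcases h1.2 with (⟨u, v, hu, hv, huv⟩ | ⟨v, c, hv, hc, h4⟩) |
          (⟨u, v, hu, hv, huv⟩ | ⟨v, c, hv, hc, h4⟩)
      · cases hu
      · cases hv
      · cases hu
      · cases hv
  refine ⟨g, ?_, ?_⟩
  · rintro ⟨⟨a | a, i⟩, ha⟩ ⟨⟨b | b, j⟩, hb⟩ h
    · rw [hg1, hg1] at h
      have h1 := hf h
      have h2 : a = b := congrArg (fun z => z.1.1) h1
      have h3 : i = j := congrArg (fun z => z.1.2) h1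
      subst h2
      subst h3
      rfl
    · rw [hg1, hg2] at h
      exact absurd h.symm (hapf _ _)
    · rw [hg1, hg2] at h
      exact absurd h (hapf _ _)
    · rw [hg2, hg2] at h
      have h2 := hapinj h
      have h3 : i = 0 := ha.2 (hRb a)
      have h4 : j = 0 := hb.2 (hRb b)
      subst h2
      subst h3
      subst h4
      rfl
  · intro a b hab
    unfold BU at hab
    rw [SimpleGraph.fromRel_adj] at hab
    rcases hab.2 with h | h
    · exact key a b h.1 h.2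
    · exact (key b a h.1 h.2).symm


theorem find {V : Type} {T : SimpleGraph V} {R : Set V} {t : ℕ} (Ct ρ : ℝ)
    (hUB : ∀ n : ℕ, ∀ G : SimpleGraph (Fin n), ¬ HasBU T R t G →
      (G.edgeSet.ncard : ℝ) ≤ Ct * (n : ℝ) ^ (2 - 1 / ρ))
    {n : ℕ} (G : SimpleGraph (Fin n)) (P Q : Finset (Fin n)) (hPQ : Disjoint P Q)
    (hbig : Ct * (((P ∪ Q).card : ℕ) : ℝ) ^ (2 - 1 / ρ) <
      ((((P ×ˢ Q).filter (fun p => G.Adj p.1 p.2)).card : ℕ) : ℝ)) :
    ∃ f : BV V R t → Fin n, Function.Injective f ∧ (∀ a, f a ∈ P ∨ f a ∈ Q) ∧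
      ∀ a b : BV V R t, (BU T R t).Adj a b → G.Adj (f a) (f b) ∧ (f a ∈ P ↔ f b ∉ P) := by
  obtain ⟨k, hk⟩ : ∃ k : ℕ, k = (P ∪ Q).card := ⟨_, rfl⟩
  obtain ⟨s⟩ : Nonempty (Fin k ≃ {v // v ∈ P ∪ Q}) :=
    ⟨(hk ▸ (P ∪ Q).equivFin).symm⟩
  obtain ⟨H, hH⟩ : ∃ H : SimpleGraph (Fin k), ∀ i j, H.Adj i j ↔
      (G.Adj (s i).1 (s j).1 ∧ ((s i).1 ∈ P ↔ (s j).1 ∉ P)) := by
    refine ⟨⟨fun i j => G.Adj (s i).1 (s j).1 ∧ ((s i).1 ∈ P ↔ (s j).1 ∉ P), ?_, ?_⟩, fun _ _ => Iff.rfl⟩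
    · constructor
      intro i j h
      exact ⟨h.1.symm, by tauto⟩
    · exact ⟨fun i h => G.irrefl h.1⟩
  have hcard : ((P ×ˢ Q).filter (fun p => G.Adj p.1 p.2)).card ≤ H.edgeSet.ncard := by
    by_cases hne : (P ∪ Q).Nonempty
    · obtain ⟨w, hw⟩ := hne
      rw [← Set.ncard_coe_finset]
      obtain ⟨idx, hidx⟩ : ∃ idx : Fin n → Fin k, ∀ v ∈ P ∪ Q, (s (idx v)).1 = v := by
        refine ⟨fun v => if h : v ∈ P ∪ Q then s.symm ⟨v, h⟩ else s.symm ⟨w, hw⟩, ?_⟩
        intro v hv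
        simp only [dif_pos hv, Equiv.apply_symm_apply]
      refine Set.ncard_le_ncard_of_injOn (fun p => s(idx p.1, idx p.2)) ?_ ?_ (Set.toFinite _)
      · rintro ⟨a, b⟩ hab
        simp only [Finset.coe_filter, Finset.mem_product, Set.mem_ofPred_eq] at hab
        obtain ⟨⟨ha, hb⟩, hadj⟩ := hab
        rw [SimpleGraph.mem_edgeSet, hH, hidx a (Finset.mem_union_left _ ha),
          hidx b (Finset.mem_union_right _ hb)]
        exact ⟨hadj, ⟨fun _ => Finset.disjoint_right.mp hPQ hb, fun _ => ha⟩⟩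
      · rintro ⟨a, b⟩ hab ⟨a', b'⟩ hab' h
        simp only [Finset.coe_filter, Finset.mem_product, Set.mem_ofPred_eq] at hab hab'
        obtain ⟨⟨ha, hb⟩, hadj⟩ := hab
        obtain ⟨⟨ha', hb'⟩, hadj'⟩ := hab'
        simp only [Sym2.eq_iff] at h
        rcases h with ⟨h1, h2⟩ | ⟨h1, h2⟩
        · have h3 := hidx a (Finset.mem_union_left _ ha)
          have h4 := hidx b (Finset.mem_union_right _ hb)
          rw [h1, hidx a' (Finset.mem_union_left _ ha')] at h3
          rw [h2, hidx b' (Finset.mem_union_right _ hb')] at h4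
          rw [h3, h4]
        · exfalso
          have h3 := hidx a (Finset.mem_union_left _ ha)
          rw [h1, hidx b' (Finset.mem_union_right _ hb')] at h3
          rw [← h3] at ha
          exact Finset.disjoint_right.mp hPQ hb' ha
    · have h1 : P ∪ Q = ∅ := Finset.not_nonempty_iff_eq_empty.mp hne
      have h2 : P = ∅ := by
        apply Finset.subset_empty.mp
        rw [← h1]
        exact Finset.subset_union_left
      rw [h2]
      simp
  have hHas : HasBU T R t H := by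
    by_contra hno
    have h1 := hUB k H hno
    rw [← hk] at hbig
    have h2 : ((((P ×ˢ Q).filter (fun p => G.Adj p.1 p.2)).card : ℕ) : ℝ) ≤ H.edgeSet.ncard := by
      exact_mod_cast hcard
    linarith
  obtain ⟨f, hf, hadj⟩ := hHas
  refine ⟨fun a => (s (f a)).1, ?_, ?_, ?_⟩
  · intro a b h
    exact hf (s.injective (Subtype.ext h))
  · intro a
    exact Finset.mem_union.mp (s (f a)).2
  · intro a b hab
    exact (hH _ _).mp (hadj a b hab)

theorem count_erase {n : ℕ} (G : SimpleGraph (Fin n)) (P Q : Finset (Fin n)) (x y : Fin n) :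
    ((P ×ˢ Q).filter (fun p => G.Adj p.1 p.2)).card ≤
      (((P.erase x) ×ˢ (Q.erase y)).filter (fun p => G.Adj p.1 p.2)).card + (P.card + Q.card) := by
  have h1 : (P ×ˢ Q).filter (fun p => G.Adj p.1 p.2) ⊆
      (((P.erase x) ×ˢ (Q.erase y)).filter (fun p => G.Adj p.1 p.2)) ∪
        ((P.image (fun a => (a, y))) ∪ (Q.image (fun b => (x, b)))) := by
    rintro ⟨a, b⟩ hab
    simp only [Finset.mem_filter, Finset.mem_product] at hab
    obtain ⟨⟨ha, hb⟩, hadj⟩ := hab
    by_cases h1 : a = x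
    · apply Finset.mem_union_right
      apply Finset.mem_union_right
      rw [Finset.mem_image]
      exact ⟨b, hb, by rw [h1]⟩
    · by_cases h2 : b = y
      · apply Finset.mem_union_right
        apply Finset.mem_union_left
        rw [Finset.mem_image]
        exact ⟨a, ha, by rw [h2]⟩
      · apply Finset.mem_union_left
        simp only [Finset.mem_filter, Finset.mem_product, Finset.mem_erase]
        exact ⟨⟨⟨h1, ha⟩, ⟨h2, hb⟩⟩, hadj⟩
  refine le_trans (Finset.card_le_card h1) ?_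
  refine le_trans (Finset.card_union_le _ _) ?_
  refine Nat.add_le_add_left ?_ _
  refine le_trans (Finset.card_union_le _ _) ?_
  exact Nat.add_le_add Finset.card_image_le Finset.card_image_le

theorem main : S_SH3 → S_SH2 := by
  intro h3 V _ T R col ρ hρ hAdm hUB t ht
  obtain ⟨hconn, hcol⟩ := h3 V T R col hAdm t ht
  obtain ⟨Ct, hCt⟩ := hUB t ht
  obtain ⟨ε, hε⟩ : ∃ ε : ℝ, ε = 1 - 1 / (ρ + 1) := ⟨_, rfl⟩
  have hε0 : 0 < ε := by
    rw [hε, sub_pos, div_lt_one (by linarith)]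
    linarith
  have hε1 : ε < 1 := by
    rw [hε]
    have : 0 < 1 / (ρ + 1) := by
      apply div_pos one_pos
      linarith
    linarith
  obtain ⟨K, hK, hreg⟩ := Pool.Agent.W247.BC.reg_holds ε hε0 hε1
  obtain ⟨M, hM⟩ : ∃ M : ℝ, M = max Ct 0 := ⟨_, rfl⟩
  have hM0 : 0 ≤ M := by rw [hM]; exact le_max_right _ _
  have hMC : Ct ≤ M := by rw [hM]; exact le_max_left _ _
  obtain ⟨C, hC⟩ : ∃ C : ℝ, C = (K : ℝ) ^ 3 * (2 * K + M * (2 * K) ^ 2) + 1 := ⟨_, rfl⟩
  have hKR : (0 : ℝ) < K := by exact_mod_cast hK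
  have hC1 : 1 ≤ C := by
    rw [hC]
    have : (0 : ℝ) ≤ (K : ℝ) ^ 3 * (2 * K + M * (2 * K) ^ 2) := by positivity
    linarith
  obtain ⟨C', hC'⟩ := hreg C
  refine ⟨C', fun n G hno => ?_⟩
  by_contra hcon
  push Not at hcon
  rw [show (2 - 1 / (ρ + 1)) = 1 + ε by rw [hε]; ring] at hcon
  obtain ⟨U, W, D, hUW, hU, hW, hD, hdU, hdW⟩ := hC' n G hcon
  have hUc : 1 ≤ U.card := hU.card_pos
  have hN : (1 : ℝ) ≤ ((U.card + W.card : ℕ) : ℝ) := by
    exact_mod_cast (by omega : 1 ≤ U.card + W.card)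
  have hDpos : 0 < D := by
    have h4 : (1 : ℝ) ≤ ((U.card + W.card : ℕ) : ℝ) ^ ε := Real.one_le_rpow hN hε0.le
    have h5 : (0 : ℝ) < D := by nlinarith
    exact_mod_cast h5
  obtain ⟨x, hx, y, hy, hxy, hexy⟩ := exists_pair G U W D K hU hDpos hK hdU hdW
  have hxW : x ∉ W := Finset.disjoint_left.mp hUW hx
  have hyU : y ∉ U := Finset.disjoint_right.mp hUW hy
  obtain ⟨P, hP⟩ : ∃ P : Finset (Fin n), P = (U.filter (fun a => G.Adj a y)).erase x := ⟨_, rfl⟩
  obtain ⟨Q, hQ⟩ : ∃ Q : Finset (Fin n), Q = (W.filter (fun b => G.Adj x b)).erase y := ⟨_, rfl⟩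
  have hPU : ∀ a ∈ P, a ∈ U ∧ G.Adj a y ∧ a ≠ x := by
    intro a ha
    rw [hP, Finset.mem_erase, Finset.mem_filter] at ha
    exact ⟨ha.2.1, ha.2.2, ha.1⟩
  have hQW : ∀ b ∈ Q, b ∈ W ∧ G.Adj x b ∧ b ≠ y := by
    intro b hb
    rw [hQ, Finset.mem_erase, Finset.mem_filter] at hb
    exact ⟨hb.2.1, hb.2.2, hb.1⟩
  have hPQ : Disjoint P Q := by
    rw [Finset.disjoint_left]
    intro a ha hb
    exact Finset.disjoint_left.mp hUW (hPU a ha).1 (hQW a hb).1
  have hPc : P.card ≤ K * D := by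
    rw [hP]
    exact le_trans (Finset.card_le_card (Finset.erase_subset _ _)) (hdW y hy).2
  have hQc : Q.card ≤ K * D := by
    rw [hQ]
    exact le_trans (Finset.card_le_card (Finset.erase_subset _ _)) (hdU x hx).2
  have hkc : (P ∪ Q).card ≤ 2 * K * D := by
    refine le_trans (Finset.card_union_le _ _) ?_
    calc P.card + Q.card ≤ K * D + K * D := Nat.add_le_add hPc hQc
      _ = 2 * K * D := by ring
  have hee : ee G U W x y ≤ ((P ×ˢ Q).filter (fun p => G.Adj p.1 p.2)).card + 2 * K * D := by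
    unfold ee
    have h6 := count_erase G (U.filter (fun a => G.Adj a y)) (W.filter (fun b => G.Adj x b)) x y
    rw [← hP, ← hQ] at h6
    refine le_trans h6 (Nat.add_le_add_left ?_ _)
    calc _ ≤ K * D + K * D := Nat.add_le_add (hdW y hy).2 (hdU x hx).2
      _ = 2 * K * D := by ring
  by_cases hbig : Ct * (((P ∪ Q).card : ℕ) : ℝ) ^ (2 - 1 / ρ) <
      ((((P ×ˢ Q).filter (fun p => G.Adj p.1 p.2)).card : ℕ) : ℝ)
  · obtain ⟨f, hf, hfPQ, hadj⟩ := find Ct ρ hCt G P Q hPQ hbig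
    apply hno
    exact extend col hconn hcol G P Q x y (G.ne_of_adj hxy)
      (fun h => (hPU x h).2.2 rfl) (fun h => hxW (hQW x h).1)
      (fun h => hyU (hPU y h).1) (fun h => (hQW y h).2.2 rfl)
      (fun b hb => (hQW b hb).2.1.symm) (fun a ha => (hPU a ha).2.1) f hf hfPQ hadj
  · push Not at hbig
    have h7 : ((((P ×ˢ Q).filter (fun p => G.Adj p.1 p.2)).card : ℕ) : ℝ) ≤
        M * (((P ∪ Q).card : ℕ) : ℝ) ^ (2 - 1 / ρ) :=
      le_trans hbig (mul_le_mul_of_nonneg_right hMC (by positivity))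
    rw [hε] at hD
    exact numer ρ M C K D U.card (U.card + W.card) _ _ _ hρ hK hM0 hC hUc (Nat.le_add_right _ _)
      hD hexy hee h7 hkc

end Pool.Agent.W239.TE4S
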