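import Pool.Agent.W979.TE.Defs

/-! # TE-BND: the number of certified zeros is bounded uniformly -/

set_option autoImplicit false

open Classical

namespace Pool.Agent.W239.TE

open Pool.Agent.W979.TE MvPolynomial

section basics

variable {ι : Type} [Fintype ι]

/-- exponent vectors -/
noncomputable def fs {n : ℕ} (a : ι → Fin (n + 1)) : ι →₀ ℕ :=
  Finsupp.equivFunOnFinite.symm (fun i => (a i : ℕ))

theorem fs_apply {n : ℕ} (a : ι → Fin (n + 1)) (i : ι) : fs a i = (a i : ℕ) := rfl

theorem fs_inj {n : ℕ} {a b : ι → Fin (n + 1)} (h : fs a = fs b) : a = b := by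
  funext i
  have := DFunLike.congr_fun h i
  rw [fs_apply, fs_apply] at this
  exact Fin.ext this

theorem exists_fs' (γ : ι →₀ ℕ) (n : ℕ) (h : ∀ i, γ i ≤ n) : ∃ a : ι → Fin (n + 1), fs a = γ := by
  refine ⟨fun i => ⟨γ i, Nat.lt_succ_of_le (h i)⟩, ?_⟩
  ext i
  rfl

theorem exists_fs (γ : ι →₀ ℕ) (n : ℕ) (h : γ.degree ≤ n) :
    ∃ a : ι → Fin (n + 1), fs a = γ :=
  exists_fs' γ n (fun i => (Finsupp.le_degree i γ).trans h)

theorem coeff_mono {R : Type} [CommRing R] {n : ℕ} (c : (ι → Fin (n + 1)) → R) (a : ι → Fin (n + 1)) :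
    coeff (fs a) (∑ β : ι → Fin (n + 1), C (c β) * monomial (fs β) (1 : R)) = c a := by
  rw [coeff_sum, Finset.sum_eq_single a]
  · rw [coeff_C_mul, coeff_monomial, if_pos rfl, mul_one]
  · intro b _ hb
    rw [coeff_C_mul, coeff_monomial, if_neg (fun h => hb (fs_inj h)), mul_zero]
  · intro h; exact absurd (Finset.mem_univ _) h

theorem coeff_mono' {R : Type} [CommRing R] {n : ℕ} (c : (ι → Fin (n + 1)) → R) (γ : ι →₀ ℕ)
    (h : ∀ a : ι → Fin (n + 1), fs a ≠ γ) :
    coeff γ (∑ β : ι → Fin (n + 1), C (c β) * monomial (fs β) (1 : R)) = 0 := by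
  rw [coeff_sum]
  apply Finset.sum_eq_zero
  intro b _
  rw [coeff_C_mul, coeff_monomial, if_neg (h b), mul_zero]

theorem expand {R : Type} [CommRing R] {n : ℕ} (p : MvPolynomial ι R)
    (hp : ∀ i, degreeOf i p ≤ n) :
    p = ∑ β : ι → Fin (n + 1), C (coeff (fs β) p) * monomial (fs β) (1 : R) := by
  ext γ
  by_cases h : ∃ a : ι → Fin (n + 1), fs a = γ
  · obtain ⟨a, rfl⟩ := h
    rw [coeff_mono]
  · push Not at h
    rw [coeff_mono' _ _ h]
    by_contra hc
    have h1 : γ ∈ p.support := mem_support_iff.2 hc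
    obtain ⟨a, ha⟩ := exists_fs' γ n (fun i => (degreeOf_le_iff.1 (hp i)) γ h1)
    exact h a ha

/-! ### The universal polynomials -/

/-- `G_j (x + h)` -/
noncomputable def TG {κ R : Type} [CommRing R] {d : ℕ} (θ : κ × (ι → Fin (d + 1)) → R)
    (x : ι → R) (j : κ) : MvPolynomial ι R :=
  ∑ α : ι → Fin (d + 1), C (θ (j, α)) * ∏ i, (X i + C (x i)) ^ (α i : ℕ)

/-- the errors of the certificates -/
noncomputable def EW {κ R : Type} [Fintype κ] [CommRing R] {d N : ℕ}
    (θ : κ × (ι → Fin (d + 1)) → R) (x : ι → R)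
    (a : (ι → Fin (N + 1)) × κ × (ι → Fin (N + 1)) → R) (w : ι → Fin (N + 1)) :
    MvPolynomial ι R :=
  ∑ j, (∑ β : ι → Fin (N + 1), C (a (w, j, β)) * monomial (fs β) (1 : R)) * TG θ x j -
    monomial (fs w) (1 : R)

theorem map_TG {κ R S : Type} [CommRing R] [CommRing S] (f : R →+* S) {d : ℕ}
    (θ : κ × (ι → Fin (d + 1)) → R) (x : ι → R) (j : κ) :
    MvPolynomial.map f (TG θ x j) = TG (fun p => f (θ p)) (fun i => f (x i)) j := by
  simp only [TG, map_sum, map_mul, map_prod, map_pow, map_add, MvPolynomial.map_C,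
    MvPolynomial.map_X]

theorem map_EW {κ R S : Type} [Fintype κ] [CommRing R] [CommRing S] (f : R →+* S) {d N : ℕ}
    (θ : κ × (ι → Fin (d + 1)) → R) (x : ι → R)
    (a : (ι → Fin (N + 1)) × κ × (ι → Fin (N + 1)) → R) (w : ι → Fin (N + 1)) :
    MvPolynomial.map f (EW θ x a w) =
      EW (fun p => f (θ p)) (fun i => f (x i)) (fun q => f (a q)) w := by
  simp only [EW, map_sum, map_mul, map_sub, MvPolynomial.map_C, MvPolynomial.map_monomial,
    map_one, map_TG]

end basics

/-! ## Translation -/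

section trans

variable {K ι κ : Type} [Field K]

noncomputable def Tx (x : ι → K) : MvPolynomial ι K →ₐ[K] MvPolynomial ι K :=
  aeval (fun i => X i + C (x i))

noncomputable def Ty (x : ι → K) : MvPolynomial ι K →ₐ[K] MvPolynomial ι K :=
  aeval (fun i => X i - C (x i))

theorem Ty_Tx (x : ι → K) (p : MvPolynomial ι K) : Ty x (Tx x p) = p := by
  have h : (Ty x).comp (Tx x) = AlgHom.id K _ := by
    apply MvPolynomial.algHom_ext
    intro i
    simp only [Ty, Tx, AlgHom.comp_apply, aeval_X, map_add, MvPolynomial.algHom_C,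
      MvPolynomial.algebraMap_eq, AlgHom.id_apply]
    ring
  exact DFunLike.congr_fun h p

theorem Tx_Ty (x : ι → K) (p : MvPolynomial ι K) : Tx x (Ty x p) = p := by
  have h : (Tx x).comp (Ty x) = AlgHom.id K _ := by
    apply MvPolynomial.algHom_ext
    intro i
    simp only [Ty, Tx, AlgHom.comp_apply, aeval_X, map_sub, MvPolynomial.algHom_C,
      MvPolynomial.algebraMap_eq, AlgHom.id_apply]
    ring
  exact DFunLike.congr_fun h p

theorem map_pt (x : ι → K) : (pt x).map (Tx x) = idealOfVars ι K := by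
  rw [pt, Ideal.map_span, ← Set.range_comp]
  congr 1
  congr 1
  funext i
  simp only [Function.comp_apply, Tx, map_sub, aeval_X, MvPolynomial.algHom_C,
    MvPolynomial.algebraMap_eq]
  ring

theorem map_vars (x : ι → K) : (idealOfVars ι K).map (Ty x) = pt x := by
  rw [pt, Ideal.map_span, ← Set.range_comp]
  congr 1
  congr 1
  funext i
  simp only [Function.comp_apply, Ty, aeval_X]

theorem cert_iff (N : ℕ) (G : κ → MvPolynomial ι K) (x : ι → K) :
    Cert N G x ↔ idealOfVars ι K ^ N ≤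
      Ideal.span (Set.range (fun j => Tx x (G j))) ⊔ idealOfVars ι K ^ (N + 1) := by
  constructor
  · intro h
    have h1 := Ideal.map_mono (f := Tx x) h
    rw [Ideal.map_pow, map_pt, Ideal.map_sup, Ideal.map_pow, map_pt, Ideal.map_span,
      ← Set.range_comp] at h1
    exact h1
  · intro h
    have h1 := Ideal.map_mono (f := Ty x) h
    rw [Ideal.map_pow, map_vars, Ideal.map_sup, Ideal.map_pow, map_vars, Ideal.map_span,
      ← Set.range_comp] at h1
    have h2 : (⇑(Ty x) ∘ fun j => Tx x (G j)) = G := by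
      funext j
      exact Ty_Tx x (G j)
    rw [h2] at h1
    exact h1

theorem Tx_coeff (x : ι → K) (p : MvPolynomial ι K) : coeff 0 (Tx x p) = eval x p := by
  have h : (MvPolynomial.constantCoeff.comp (Tx x).toRingHom) = eval x := by
    apply MvPolynomial.ringHom_ext
    · intro r
      simp [Tx]
    · intro i
      simp [Tx]
  have := DFunLike.congr_fun h p
  rw [← this]
  rfl

end trans

/-! ## The criterion -/

section crit

variable {K ι κ : Type} [Field K] [Fintype ι] [Fintype κ]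

theorem crit (N : ℕ) (H : κ → MvPolynomial ι K) :
    idealOfVars ι K ^ N ≤ Ideal.span (Set.range H) ⊔ idealOfVars ι K ^ (N + 1) ↔
    ∃ a : (ι → Fin (N + 1)) × κ × (ι → Fin (N + 1)) → K,
      ∀ w γ : ι → Fin (N + 1), (fs w).degree = N → (fs γ).degree ≤ N →
        coeff (fs γ) (∑ j, (∑ β : ι → Fin (N + 1), C (a (w, j, β)) *
          monomial (fs β) (1 : K)) * H j - monomial (fs w) (1 : K)) = 0 := by
  constructor
  · intro h
    have h1 : ∀ w : ι → Fin (N + 1), (fs w).degree = N → ∃ B : κ → MvPolynomial ι K,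
        ∑ j, B j * H j - monomial (fs w) (1 : K) ∈ idealOfVars ι K ^ (N + 1) := by
      intro w hw
      have h2 : monomial (fs w) (1 : K) ∈ idealOfVars ι K ^ N :=
        (monomial_mem_pow_idealOfVars_iff N (fs w) one_ne_zero).2 hw.ge
      obtain ⟨p, hp, q, hq, hpq⟩ := Submodule.mem_sup.1 (h h2)
      obtain ⟨B, hB⟩ := Ideal.mem_span_range_iff_exists_fun.1 hp
      refine ⟨B, ?_⟩
      rw [hB, ← hpq]
      have : p - (p + q) = -q := by ring
      rw [this]
      exact neg_mem hq
    choose! B hB using h1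
    refine ⟨fun q => coeff (fs q.2.2) (B q.1 q.2.1), ?_⟩
    intro w γ hw hγ
    have h3 : ∑ j, (∑ β : ι → Fin (N + 1), C (coeff (fs β) (B w j)) *
          monomial (fs β) (1 : K)) * H j - monomial (fs w) (1 : K) ∈
          idealOfVars ι K ^ (N + 1) := by
      have h4 : ∀ j, B w j - (∑ β : ι → Fin (N + 1), C (coeff (fs β) (B w j)) *
          monomial (fs β) (1 : K)) ∈ idealOfVars ι K ^ (N + 1) := by
        intro j
        rw [mem_pow_idealOfVars_iff']
        intro δ hδ
        obtain ⟨b, rfl⟩ := exists_fs δ N (by omega)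
        rw [coeff_sub, coeff_mono, sub_self]
      have h5 : ∑ j, (∑ β : ι → Fin (N + 1), C (coeff (fs β) (B w j)) *
          monomial (fs β) (1 : K)) * H j - monomial (fs w) (1 : K) =
          (∑ j, B w j * H j - monomial (fs w) (1 : K)) -
            ∑ j, (B w j - (∑ β : ι → Fin (N + 1), C (coeff (fs β) (B w j)) *
          monomial (fs β) (1 : K))) * H j := by
        simp only [sub_mul, Finset.sum_sub_distrib]
        ring
      rw [h5]
      exact sub_mem (hB w hw) (sum_mem (fun j _ => Ideal.mul_mem_right _ _ (h4 j)))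
    exact (mem_pow_idealOfVars_iff' _ _).1 h3 (fs γ) (by omega)
  · rintro ⟨a, ha⟩
    rw [pow_idealOfVars_eq_span, Ideal.span_le]
    rintro _ ⟨w', hw', rfl⟩
    simp only [Set.mem_preimage, Set.mem_singleton_iff] at hw'
    obtain ⟨w, rfl⟩ := exists_fs w' N hw'.le
    have h3 : ∑ j, (∑ β : ι → Fin (N + 1), C (a (w, j, β)) *
          monomial (fs β) (1 : K)) * H j - monomial (fs w) (1 : K) ∈
          idealOfVars ι K ^ (N + 1) := by
      rw [mem_pow_idealOfVars_iff']
      intro δ hδ
      obtain ⟨b, rfl⟩ := exists_fs δ N (by omega)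
      exact ha w b hw' (by omega)
    have h4 : ∑ j, (∑ β : ι → Fin (N + 1), C (a (w, j, β)) *
          monomial (fs β) (1 : K)) * H j ∈ Ideal.span (Set.range H) :=
      sum_mem (fun j _ => Ideal.mul_mem_left _ _ (Ideal.subset_span ⟨j, rfl⟩))
    have h5 : monomial (fs w) (1 : K) = (∑ j, (∑ β : ι → Fin (N + 1), C (a (w, j, β)) *
          monomial (fs β) (1 : K)) * H j) - (∑ j, (∑ β : ι → Fin (N + 1), C (a (w, j, β)) *
          monomial (fs β) (1 : K)) * H j - monomial (fs w) (1 : K)) := by ring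
    show monomial (fs w) (1 : K) ∈ _
    rw [h5]
    exact sub_mem (Ideal.mem_sup_left h4) (Ideal.mem_sup_right h3)

omit [Fintype κ] in
theorem Tx_G {d : ℕ} (G : κ → MvPolynomial ι K) (hG : ∀ j i, degreeOf i (G j) ≤ d) (x : ι → K)
    (j : κ) : Tx x (G j) = TG (fun p : κ × (ι → Fin (d + 1)) => coeff (fs p.2) (G p.1)) x j := by
  conv_lhs => rw [expand (G j) (hG j)]
  rw [map_sum, TG]
  apply Finset.sum_congr rfl
  intro α _
  rw [map_mul, MvPolynomial.algHom_C, MvPolynomial.algebraMap_eq]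
  congr 1
  rw [Tx, aeval_monomial, map_one, one_mul, Finsupp.prod_fintype _ _ (fun i => pow_zero _)]
  rfl

end crit

/-! ## The system -/

/-- the index set of the unknowns -/
abbrev Tau (ι κ : Type) (N : ℕ) : Type := ι ⊕ ((ι → Fin (N + 1)) × κ × (ι → Fin (N + 1)))

/-- the index set of the parameters -/
abbrev Sig (ι κ : Type) (d : ℕ) : Type := κ × (ι → Fin (d + 1))

section sys

variable (ι κ : Type) [Fintype ι] [Fintype κ] (d N : ℕ)

noncomputable def th0 : κ × (ι → Fin (d + 1)) → MvPolynomial (Sig ι κ d ⊕ Tau ι κ N) ℤ :=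
  fun p => X (Sum.inl p)

noncomputable def x0 : ι → MvPolynomial (Sig ι κ d ⊕ Tau ι κ N) ℤ :=
  fun i => X (Sum.inr (Sum.inl i))

noncomputable def a0 : (ι → Fin (N + 1)) × κ × (ι → Fin (N + 1)) →
    MvPolynomial (Sig ι κ d ⊕ Tau ι κ N) ℤ :=
  fun q => X (Sum.inr (Sum.inr q))

/-- the system of equations -/
noncomputable def SS : Finset (MvPolynomial (Sig ι κ d ⊕ Tau ι κ N) ℤ) :=
  (Finset.univ.image (fun j : κ => coeff 0 (TG (th0 ι κ d N) (x0 ι κ d N) j))) ∪
  ((Finset.univ.filter (fun p : (ι → Fin (N + 1)) × (ι → Fin (N + 1)) =>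
    (fs p.1).degree = N ∧ (fs p.2).degree ≤ N)).image
      (fun p => coeff (fs p.2) (EW (th0 ι κ d N) (x0 ι κ d N) (a0 ι κ d N) p.1)))

theorem SS_iff {K : Type} [Field K] (θ : Sig ι κ d → K) (v : Tau ι κ N → K) :
    (∀ P ∈ SS ι κ d N, aeval (Sum.elim θ v) P = 0) ↔
      (∀ j, coeff 0 (TG θ (fun i => v (Sum.inl i)) j) = 0) ∧
      ∀ w γ : ι → Fin (N + 1), (fs w).degree = N → (fs γ).degree ≤ N →
        coeff (fs γ) (EW θ (fun i => v (Sum.inl i)) (fun q => v (Sum.inr q)) w) = 0 := by
  set e : MvPolynomial (Sig ι κ d ⊕ Tau ι κ N) ℤ →+* K :=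
    (aeval (Sum.elim θ v) : MvPolynomial (Sig ι κ d ⊕ Tau ι κ N) ℤ →ₐ[ℤ] K).toRingHom with he
  have e1 : (fun p => e (th0 ι κ d N p)) = θ := by
    funext p
    simp [he, th0]
  have e2 : (fun i => e (x0 ι κ d N i)) = fun i => v (Sum.inl i) := by
    funext p
    simp [he, x0]
  have e3 : (fun q => e (a0 ι κ d N q)) = fun q => v (Sum.inr q) := by
    funext p
    simp [he, a0]
  have h1 : ∀ j, e (coeff 0 (TG (th0 ι κ d N) (x0 ι κ d N) j)) =
      coeff 0 (TG θ (fun i => v (Sum.inl i)) j) := by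
    intro j
    rw [← MvPolynomial.coeff_map, map_TG, e1, e2]
  have h2 : ∀ w γ : ι → Fin (N + 1),
      e (coeff (fs γ) (EW (th0 ι κ d N) (x0 ι κ d N) (a0 ι κ d N) w)) =
      coeff (fs γ) (EW θ (fun i => v (Sum.inl i)) (fun q => v (Sum.inr q)) w) := by
    intro w γ
    rw [← MvPolynomial.coeff_map, map_EW, e1, e2, e3]
  constructor
  · intro h
    constructor
    · intro j
      rw [← h1]
      exact h _ (Finset.mem_union_left _ (Finset.mem_image_of_mem _ (Finset.mem_univ j)))
    · intro w γ hw hγ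
      rw [← h2]
      exact h _ (Finset.mem_union_right _ (Finset.mem_image.2
        ⟨(w, γ), Finset.mem_filter.2 ⟨Finset.mem_univ _, hw, hγ⟩, rfl⟩))
  · rintro ⟨h3, h4⟩ P hP
    rcases Finset.mem_union.1 hP with hP | hP
    · obtain ⟨j, -, rfl⟩ := Finset.mem_image.1 hP
      exact (h1 j).trans (h3 j)
    · obtain ⟨p, hp, rfl⟩ := Finset.mem_image.1 hP
      obtain ⟨-, hw, hγ⟩ := Finset.mem_filter.1 hp
      exact (h2 p.1 p.2).trans (h4 p.1 p.2 hw hγ)

theorem cert_SS {K : Type} [Field K] (G : κ → MvPolynomial ι K)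
    (hG : ∀ j i, degreeOf i (G j) ≤ d) (x : ι → K) :
    ((∀ j, eval x (G j) = 0) ∧ Cert N G x) ↔
      ∃ v : Tau ι κ N → K, (∀ i, v (Sum.inl i) = x i) ∧
        ∀ P ∈ SS ι κ d N, aeval (Sum.elim (fun p : κ × (ι → Fin (d + 1)) =>
          coeff (fs p.2) (G p.1)) v) P = 0 := by
  rw [cert_iff, crit]
  constructor
  · rintro ⟨h1, a, ha⟩
    refine ⟨Sum.elim x a, fun i => rfl, ?_⟩
    rw [SS_iff]
    constructor
    · intro j
      simp only [Sum.elim_inl]
      have := h1 j
      rw [← Tx_coeff, Tx_G G hG] at this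
      exact this
    · intro w γ hw hγ
      have := ha w γ hw hγ
      simp only [Tx_G G hG] at this
      exact this
  · rintro ⟨v, hv, h⟩
    rw [SS_iff] at h
    have hv' : (fun i => v (Sum.inl i)) = x := funext hv
    rw [hv'] at h
    obtain ⟨h1, h2⟩ := h
    refine ⟨?_, fun q => v (Sum.inr q), ?_⟩
    · intro j
      rw [← Tx_coeff, Tx_G G hG]
      exact h1 j
    · intro w γ hw hγ
      have := h2 w γ hw hγ
      simp only [Tx_G G hG]
      exact this

end sys

theorem main : S_UF → S_FIN → S_BND := by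
  intro hUF hFIN ι κ _ _ d N
  choose C hC using fun i : ι => hUF (Sig ι κ d) (Tau ι κ N) (SS ι κ d N) (Sum.inl i)
  refine ⟨∏ i, C i, ?_⟩
  -- algebraically closed fields
  have hK : ∀ (K : Type) [Field K] [IsAlgClosed K] (G : κ → MvPolynomial ι K),
      (∀ j i, degreeOf i (G j) ≤ d) →
      {x : ι → K | (∀ j, eval x (G j) = 0) ∧ Cert N G x}.ncard ≤ ∏ i, C i := by
    intro K _ _ G hG
    set θ : Sig ι κ d → K := fun p => coeff (fs p.2) (G p.1) with hθ
    set Z := {x : ι → K | (∀ j, eval x (G j) = 0) ∧ Cert N G x} with hZ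
    have hZf : Z.Finite := hFIN K ι κ N G
    have hpr : ∀ i, {y : K | ∃ v : Tau ι κ N → K, v (Sum.inl i) = y ∧
        ∀ P ∈ SS ι κ d N, aeval (Sum.elim θ v) P = 0} = (fun x : ι → K => x i) '' Z := by
      intro i
      ext y
      constructor
      · rintro ⟨v, hv, h⟩
        refine ⟨fun i => v (Sum.inl i), ?_, hv⟩
        exact (cert_SS ι κ d N G hG _).2 ⟨v, fun i => rfl, h⟩
      · rintro ⟨x, hx, rfl⟩
        obtain ⟨v, hv, h⟩ := (cert_SS ι κ d N G hG x).1 hx
        exact ⟨v, hv i, h⟩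
    have hfin : ∀ i, ((fun x : ι → K => x i) '' Z).Finite := fun i => hZf.image _
    have hcard : ∀ i, ((fun x : ι → K => x i) '' Z).ncard ≤ C i := by
      intro i
      have := hC i K θ (by rw [hpr i]; exact hfin i)
      rw [hpr i] at this
      exact this
    have hsub : Z ⊆ (Fintype.piFinset (fun i => (hfin i).toFinset) : Set (ι → K)) := by
      intro x hx
      simp only [Finset.mem_coe, Fintype.mem_piFinset, Set.Finite.mem_toFinset]
      exact fun i => ⟨x, hx, rfl⟩
    calc Z.ncard ≤ (Fintype.piFinset (fun i => (hfin i).toFinset) : Set (ι → K)).ncard :=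
          Set.ncard_le_ncard hsub (Finset.finite_toSet _)
      _ = ∏ i, (hfin i).toFinset.card := by
          rw [Set.ncard_coe_finset, Fintype.card_piFinset]
      _ ≤ ∏ i, C i := by
          apply Finset.prod_le_prod'
          intro i _
          rw [← Set.ncard_eq_toFinset_card _ (hfin i)]
          exact hcard i
  intro F _ G hG
  set K := AlgebraicClosure F with hKdef
  set f : F →+* K := algebraMap F K with hf
  have hfinj : Function.Injective f := f.injective
  set G' : κ → MvPolynomial ι K := fun j => MvPolynomial.map f (G j) with hG'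
  have hG'd : ∀ j i, degreeOf i (G' j) ≤ d := by
    intro j i
    rw [degreeOf_le_iff]
    intro s hs
    exact (degreeOf_le_iff.1 (hG j i)) s (MvPolynomial.support_map_subset _ _ hs)
  refine le_trans ?_ (hK K G' hG'd)
  have hfinK : {x : ι → K | (∀ j, eval x (G' j) = 0) ∧ Cert N G' x}.Finite := hFIN K ι κ N G'
  refine Set.ncard_le_ncard_of_injOn (fun x : ι → F => fun i => f (x i)) ?_ ?_ hfinK
  · rintro x ⟨h1, h2⟩
    refine ⟨?_, ?_⟩
    · intro j
      have h3 : eval (fun i => f (x i)) (MvPolynomial.map f (G j)) = f (eval x (G j)) := by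
        have h4 : ((eval (fun i => f (x i))).comp (MvPolynomial.map f) :
            MvPolynomial ι F →+* K) = f.comp (eval x) := by
          apply MvPolynomial.ringHom_ext
          · intro r
            simp
          · intro i
            simp
        exact DFunLike.congr_fun h4 (G j)
      rw [hG', h3, h1 j, map_zero]
    · have hpt : (pt x).map (MvPolynomial.map f) = pt (fun i => f (x i)) := by
        rw [pt, pt, Ideal.map_span, ← Set.range_comp]
        congr 1
        congr 1
        funext i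
        simp
      have h3 := Ideal.map_mono (f := MvPolynomial.map f) h2
      rw [Ideal.map_pow, hpt, Ideal.map_sup, Ideal.map_pow, hpt, Ideal.map_span,
        ← Set.range_comp] at h3
      exact h3
  · intro x _ y _ hxy
    funext i
    exact hfinj (congrFun hxy i)

end Pool.Agent.W239.TE
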